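import Pool.Agent.Q85.UB.Repar
import Pool.Agent.W821.TB.Ang

/-! The angular momentum of the pair changes little. -/

set_option autoImplicit false

namespace Pool.Agent.Q85.UB

open Pool.Agent.W821.TB
open Pool.Agent.Y516.NW (E3 Cfg Mot cm P2)
open Set

theorem acc3 (m : Fin 3 → ℝ) (q : Fin 3 → ℂ) (a b c : Fin 3) (hab : a ≠ b) (hca : c ≠ a) (hcb : c ≠ b) :
    acc m q a = ((m b / ‖q b - q a‖ ^ 3 : ℝ) : ℂ) * (q b - q a) + ((m c / ‖q c - q a‖ ^ 3 : ℝ) : ℂ) * (q c - q a) := by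
  unfold acc
  rw [Finset.sum_erase, sum3 _ a b c hab hca hcb]
  · simp
  · simp

theorem ker_diff {d : ℝ} (hd : 0 < d) {x y : ℂ} (hx : d ≤ ‖x‖) (hy : d ≤ ‖y‖) :
    ‖((1 / ‖x‖ ^ 3 : ℝ) : ℂ) * x - ((1 / ‖y‖ ^ 3 : ℝ) : ℂ) * y‖ ≤ 4 / d ^ 3 * ‖x - y‖ := by
  rw [← ker_eq hx, ← ker_eq hy]
  exact ker_lip hd x y

theorem LM_deriv {m : Fin 3 → ℝ} {γ : ℝ → Ph 3} {t : ℝ} (hsol : HasDerivAt γ ((γ t).2, acc m (γ t).1) t)
    (a b c : Fin 3) (hab : a ≠ b) (hca : c ≠ a) (hcb : c ≠ b) :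
    HasDerivAt (fun s => LM (γ s) a b) (m c * ((starRingEnd ℂ) ((γ t).1 b - (γ t).1 a) *
      (((1 / ‖(γ t).1 c - (γ t).1 b‖ ^ 3 : ℝ) : ℂ) * ((γ t).1 c - (γ t).1 b) -
        ((1 / ‖(γ t).1 c - (γ t).1 a‖ ^ 3 : ℝ) : ℂ) * ((γ t).1 c - (γ t).1 a))).im) t := by
  have hp := fun i => fst_deriv hsol i
  have hv := fun i => snd_deriv hsol i
  simp only at hp hv
  have h0 : HasDerivAt (fun s => (γ s).1 b - (γ s).1 a) ((γ t).2 b - (γ t).2 a) t := (hp b).sub (hp a)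
  have h1 : HasDerivAt (fun s => (starRingEnd ℂ) ((γ s).1 b - (γ s).1 a))
    ((starRingEnd ℂ) ((γ t).2 b - (γ t).2 a)) t := hasDerivAt_conj h0
  have h2 : HasDerivAt (fun s => (γ s).2 b - (γ s).2 a) (acc m (γ t).1 b - acc m (γ t).1 a) t :=
    (hv b).sub (hv a)
  have h3 : HasDerivAt (fun s => (starRingEnd ℂ) ((γ s).1 b - (γ s).1 a) * ((γ s).2 b - (γ s).2 a))
    ((starRingEnd ℂ) ((γ t).2 b - (γ t).2 a) * ((γ t).2 b - (γ t).2 a) +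
      (starRingEnd ℂ) ((γ t).1 b - (γ t).1 a) * (acc m (γ t).1 b - acc m (γ t).1 a)) t := h1.mul h2
  have h4 := hasDerivAt_imc h3
  refine h4.congr_deriv ?_
  rw [acc3 m _ b a c hab.symm hcb hca, acc3 m _ a b c hab hca hcb, norm_sub_rev ((γ t).1 a)]
  set r := (γ t).1 b - (γ t).1 a with hr
  have hr' : (γ t).1 a - (γ t).1 b = -r := by rw [hr]; ring
  rw [hr']
  simp only [Complex.add_im, Complex.sub_im, Complex.mul_im, Complex.sub_re, Complex.add_re, Complex.mul_re,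
    Complex.ofReal_re, Complex.ofReal_im, Complex.conj_re, Complex.conj_im, Complex.neg_re, Complex.neg_im]
  ring

/-- the torque -/
theorem torque {m : Fin 3 → ℝ} (hm : ∀ i, 0 < m i) (z : Ph 3) (a b c : Fin 3) (d R : ℝ) (hd : 0 < d)
    (ha : d ≤ ‖z.1 c - z.1 a‖) (hb : d ≤ ‖z.1 c - z.1 b‖) (hR : ‖z.1 a - z.1 b‖ ≤ R) :
    |m c * ((starRingEnd ℂ) (z.1 b - z.1 a) *
      (((1 / ‖z.1 c - z.1 b‖ ^ 3 : ℝ) : ℂ) * (z.1 c - z.1 b) -
        ((1 / ‖z.1 c - z.1 a‖ ^ 3 : ℝ) : ℂ) * (z.1 c - z.1 a))).im| ≤ 4 * m c * R ^ 2 / d ^ 3 := by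
  have hR0 : 0 ≤ R := (norm_nonneg _).trans hR
  rw [abs_mul, abs_of_pos (hm c)]
  have h1 := ker_diff hd hb ha
  have h2 : z.1 c - z.1 b - (z.1 c - z.1 a) = z.1 a - z.1 b := by ring
  rw [h2] at h1
  have h3 : |((starRingEnd ℂ) (z.1 b - z.1 a) *
      (((1 / ‖z.1 c - z.1 b‖ ^ 3 : ℝ) : ℂ) * (z.1 c - z.1 b) -
        ((1 / ‖z.1 c - z.1 a‖ ^ 3 : ℝ) : ℂ) * (z.1 c - z.1 a))).im| ≤ R * (4 / d ^ 3 * R) := by
    refine (Complex.abs_im_le_norm _).trans ?_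
    rw [norm_mul, Complex.norm_conj, norm_sub_rev (z.1 b)]
    exact mul_le_mul hR (h1.trans (by gcongr)) (norm_nonneg _) hR0
  calc m c * |((starRingEnd ℂ) (z.1 b - z.1 a) *
      (((1 / ‖z.1 c - z.1 b‖ ^ 3 : ℝ) : ℂ) * (z.1 c - z.1 b) -
        ((1 / ‖z.1 c - z.1 a‖ ^ 3 : ℝ) : ℂ) * (z.1 c - z.1 a))).im| ≤ m c * (R * (4 / d ^ 3 * R)) :=
        mul_le_mul_of_nonneg_left h3 (hm c).le
    _ = _ := by ring

theorem LM_change {m : Fin 3 → ℝ} (hm : ∀ i, 0 < m i) {γ : ℝ → Ph 3} {T : ℝ} (hT : 0 ≤ T)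
    (a b c : Fin 3) (hab : a ≠ b) (hca : c ≠ a) (hcb : c ≠ b) (w ρ R : ℝ) (hw : 0 < w) (hρ : 0 < ρ)
    (hc : ContinuousOn γ (Icc 0 T))
    (hsol : ∀ t ∈ Ico 0 T, HasDerivAt γ ((γ t).2, acc m (γ t).1) t)
    (ha : ∀ t ∈ Ico 0 T, (ρ / 2 + t * w) / 4 ≤ ‖(γ t).1 c - (γ t).1 a‖)
    (hb : ∀ t ∈ Ico 0 T, (ρ / 2 + t * w) / 4 ≤ ‖(γ t).1 c - (γ t).1 b‖)
    (hR : ∀ t ∈ Ico 0 T, ‖(γ t).1 a - (γ t).1 b‖ ≤ R) :
    |LM (γ T) a b - LM (γ 0) a b| ≤ 512 * m c * R ^ 2 / (w * ρ ^ 2) := by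
  have hmc := hm c
  set B : ℝ → ℝ := fun t => 128 * m c * R ^ 2 / w * (1 / (ρ / 2) ^ 2 - 1 / (ρ / 2 + t * w) ^ 2) with hB
  set B' : ℝ → ℝ := fun t => 256 * m c * R ^ 2 / (ρ / 2 + t * w) ^ 3 with hB'
  have hpos : ∀ t, (0 : ℝ) ≤ t → 0 < ρ / 2 + t * w := fun t ht => by positivity
  have hBd : ∀ t, (0 : ℝ) ≤ t → HasDerivAt B (B' t) t := by
    intro t ht
    have h0 := hpos t ht
    have h1 : HasDerivAt (fun t : ℝ => ρ / 2 + t * w) w t := by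
      have := ((hasDerivAt_id t).mul_const w).const_add (ρ / 2)
      rwa [one_mul] at this
    have h2 := (h1.pow 2)
    have h3 := (h2.inv (pow_ne_zero 2 h0.ne')).const_sub (1 / (ρ / 2) ^ 2)
    have h4 := h3.const_mul (128 * m c * R ^ 2 / w)
    have e : B = fun t => 128 * m c * R ^ 2 / w * (1 / (ρ / 2) ^ 2 - ((ρ / 2 + t * w) ^ 2)⁻¹) := by
      funext t; simp only [hB, one_div]
    rw [e]
    refine h4.congr_deriv ?_
    simp only [hB']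
    norm_num
    field_simp
    ring
  have hLc : ContinuousOn (fun t => LM (γ t) a b) (Icc 0 T) := by
    unfold LM
    have h1 : ∀ i, ContinuousOn (fun t => (γ t).1 i) (Icc 0 T) := fun i =>
      (continuous_apply i).comp_continuousOn (continuous_fst.comp_continuousOn hc)
    have h2 : ∀ i, ContinuousOn (fun t => (γ t).2 i) (Icc 0 T) := fun i =>
      (continuous_apply i).comp_continuousOn (continuous_snd.comp_continuousOn hc)
    exact Complex.continuous_im.comp_continuousOn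
      ((Complex.continuous_conj.comp_continuousOn ((h1 b).sub (h1 a))).mul ((h2 b).sub (h2 a)))
  have key := image_norm_le_of_norm_deriv_right_le_deriv_boundary' (f := fun t => LM (γ t) a b - LM (γ 0) a b)
    (f' := fun t => m c * ((starRingEnd ℂ) ((γ t).1 b - (γ t).1 a) *
      (((1 / ‖(γ t).1 c - (γ t).1 b‖ ^ 3 : ℝ) : ℂ) * ((γ t).1 c - (γ t).1 b) -
        ((1 / ‖(γ t).1 c - (γ t).1 a‖ ^ 3 : ℝ) : ℂ) * ((γ t).1 c - (γ t).1 a))).im)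
    (a := 0) (b := T) (hLc.sub continuousOn_const)
    (fun t ht => ((LM_deriv (hsol t ht) a b c hab hca hcb).sub_const _).hasDerivWithinAt)
    (B := B) (B' := B') (by simp [hB])
    (fun t ht => (hBd t ht.1).continuousAt.continuousWithinAt)
    (fun t ht => (hBd t ht.1).hasDerivWithinAt)
    (fun t ht => by
      rw [Real.norm_eq_abs]
      have h0 := hpos t ht.1
      refine (torque hm (γ t) a b c ((ρ / 2 + t * w) / 4) R (by positivity) (ha t ht) (hb t ht) (hR t ht)).trans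
        (le_of_eq ?_)
      simp only [hB']
      field_simp
      ring)
    (⟨hT, le_rfl⟩ : T ∈ Icc (0 : ℝ) T)
  rw [Real.norm_eq_abs] at key
  refine key.trans ?_
  simp only [hB]
  have h0 := hpos T hT
  have h5 : 1 / (ρ / 2) ^ 2 - 1 / (ρ / 2 + T * w) ^ 2 ≤ 4 / ρ ^ 2 := by
    have : 1 / (ρ / 2) ^ 2 = 4 / ρ ^ 2 := by field_simp; norm_num
    rw [this]
    have : 0 ≤ 1 / (ρ / 2 + T * w) ^ 2 := by positivity
    linarith
  calc 128 * m c * R ^ 2 / w * (1 / (ρ / 2) ^ 2 - 1 / (ρ / 2 + T * w) ^ 2)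
      ≤ 128 * m c * R ^ 2 / w * (4 / ρ ^ 2) := by gcongr
    _ = _ := by field_simp; ring

end Pool.Agent.Q85.UB
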