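import Pool.Agent.Q85.UB.Esc

/-! Bounded solutions of the planar three-body problem. -/

set_option autoImplicit false

namespace Pool.Agent.Q85.UB

open Pool.Agent.W821.TB
open Pool.Agent.Y516.NW (E3 Cfg Mot cm P2)
open Pool.Agent.Q130.NX (FG fin3 curve relvel)
open Complex ComplexConjugate

/-- all mutual distances are bounded -/
def Bdd (x : ℝ → Ph 3) : Prop := ∃ R : ℝ, ∀ t a b, ‖(x t).1 a - (x t).1 b‖ ≤ R

/-- relative velocity (or position) of `c` and the centre of mass of `a`, `b` in the plane -/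
noncomputable def prel (m : Fin 3 → ℝ) (u : Fin 3 → ℂ) (a b c : Fin 3) : ℂ :=
  u c - ((m a : ℂ) * u a + (m b : ℂ) * u b) / ((m a : ℂ) + (m b : ℂ))

theorem rel_io (m : Fin 3 → ℝ) (u : Fin 3 → ℂ) (a b c : Fin 3) :
    rel m (fun i => io (u i)) a b c = io (prel m u a b c) := by
  unfold rel prel
  have h : ((m a : ℂ) * u a + (m b : ℂ) * u b) / ((m a : ℂ) + (m b : ℂ)) =
      ((m a + m b)⁻¹ : ℝ) • (m a • u a + m b • u b) := by
    simp only [Complex.real_smul]
    push_cast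
    rw [div_eq_inv_mul]
  rw [h, map_sub, map_smul, map_add, map_smul, map_smul]

theorem lower_growth {f f' : ℝ → ℝ} {t₁ C : ℝ} (hf : ∀ t, HasDerivAt f (f' t) t) (hC : ∀ t, t₁ ≤ t → C ≤ f' t)
    (t : ℝ) (ht : t₁ ≤ t) : C * (t - t₁) ≤ f t - f t₁ := by
  refine Convex.mul_sub_le_image_sub_of_le_deriv (convex_Ici t₁)
    (fun s _ => (hf s).continuousAt.continuousWithinAt) (fun s _ => (hf s).differentiableAt.differentiableWithinAt)
    (fun s hs => ?_) t₁ (Set.mem_Ici.mpr le_rfl) t (Set.mem_Ici.mpr ht) ht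
  rw [interior_Ici] at hs
  rw [(hf s).deriv]
  exact hC s (le_of_lt hs)

/-- in the centre of mass frame the positions are bounded by the largest distance -/
theorem pos_le {m : Fin 3 → ℝ} (hm : ∀ a, 0 < m a) {z : Ph 3} (hz : z ∈ phaseSpace m) (R : ℝ)
    (hR : ∀ a b, ‖z.1 a - z.1 b‖ ≤ R) (a : Fin 3) : ‖z.1 a‖ ≤ R := by
  have hM : 0 < ∑ b, m b := Finset.sum_pos (fun i _ => hm i) ⟨0, Finset.mem_univ _⟩
  have h1 : ((∑ b, m b : ℝ) : ℂ) * z.1 a = ∑ b, (m b : ℂ) * (z.1 a - z.1 b) := by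
    simp only [mul_sub, Finset.sum_sub_distrib]
    rw [hz.2.1, sub_zero, Complex.ofReal_sum, Finset.sum_mul]
  have h2 : (∑ b, m b) * ‖z.1 a‖ ≤ (∑ b, m b) * R := by
    have h3 : ‖((∑ b, m b : ℝ) : ℂ) * z.1 a‖ = (∑ b, m b) * ‖z.1 a‖ := by
      rw [norm_mul, Complex.norm_real, Real.norm_of_nonneg hM.le]
    rw [← h3, h1, Finset.sum_mul]
    refine (norm_sum_le _ _).trans (Finset.sum_le_sum fun b _ => ?_)
    rw [norm_mul, Complex.norm_real, Real.norm_of_nonneg (hm b).le]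
    exact mul_le_mul_of_nonneg_left (hR a b) (hm b).le
  exact le_of_mul_le_mul_left h2 hM

/-- bounded solutions have energy at most zero -/
theorem energy_le {m : Fin 3 → ℝ} (hm : ∀ a, 0 < m a) {x : ℝ → Ph 3} (hx : IsSol m Set.univ x) (hb : Bdd x) :
    energy m (x 0) ≤ 0 := by
  by_contra hE
  push Not at hE
  obtain ⟨R, hR⟩ := hb
  set E := energy m (x 0) with hEdef
  set J : ℝ → ℝ := fun t => ∑ a, m a * ip ((x t).1 a) ((x t).2 a) with hJ
  set I : ℝ → ℝ := fun t => ∑ a, m a * ip ((x t).1 a) ((x t).1 a) with hI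
  have hJd : ∀ t, HasDerivAt J (∑ a, m a * (ip ((x t).2 a) ((x t).2 a) + ip ((x t).1 a) (acc m (x t).1 a))) t :=
    fun t => HasDerivAt.fun_sum fun a _ => (hasDerivAt_ip (hasDerivAt_pos hx t a) (hasDerivAt_vel hx t a)).const_mul _
  have hId : ∀ t, HasDerivAt I (∑ a, m a * (ip ((x t).2 a) ((x t).1 a) + ip ((x t).1 a) ((x t).2 a))) t :=
    fun t => HasDerivAt.fun_sum fun a _ => (hasDerivAt_ip (hasDerivAt_pos hx t a) (hasDerivAt_pos hx t a)).const_mul _
  have hsym : ∀ u v : ℂ, ip u v = ip v u := fun u v => by simp only [ip_eq]; ring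
  have hJ1 : ∀ t, (0 : ℝ) ≤ t → E ≤ ∑ a, m a * (ip ((x t).2 a) ((x t).2 a) + ip ((x t).1 a) (acc m (x t).1 a)) := by
    intro t _
    have h1 := virial (m := m) (hx.mem t).1
    have h2 : energy m (x t) = E := energy_const hx t 0
    have h3 : ∑ a, m a * (ip ((x t).2 a) ((x t).2 a) + ip ((x t).1 a) (acc m (x t).1 a)) =
        ∑ a, m a * ‖(x t).2 a‖ ^ 2 + ∑ a, m a * ip (acc m (x t).1 a) ((x t).1 a) := by
      rw [← Finset.sum_add_distrib]
      refine Finset.sum_congr rfl fun a _ => ?_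
      rw [ip_self, hsym ((x t).1 a)]
      ring
    have h4 : 0 ≤ ∑ a, m a * ‖(x t).2 a‖ ^ 2 := Finset.sum_nonneg fun a _ => by have := hm a; positivity
    rw [h3, h1]
    unfold energy at h2
    linarith
  have hJg := lower_growth hJd hJ1
  set t₁ : ℝ := (|J 0| + 1) / E with ht₁
  have ht₁0 : 0 ≤ t₁ := by positivity
  have hJ2 : ∀ t, t₁ ≤ t → (2 : ℝ) ≤ ∑ a, m a * (ip ((x t).2 a) ((x t).1 a) + ip ((x t).1 a) ((x t).2 a)) := by
    intro t ht
    have h1 := hJg t (ht₁0.trans ht)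
    have h2 : |J 0| + 1 ≤ E * (t - 0) := by
      rw [sub_zero]
      rw [ht₁, div_le_iff₀ hE] at ht
      linarith
    have h3 : ∑ a, m a * (ip ((x t).2 a) ((x t).1 a) + ip ((x t).1 a) ((x t).2 a)) = 2 * J t := by
      rw [hJ]
      simp only
      rw [Finset.mul_sum]
      refine Finset.sum_congr rfl fun a _ => ?_
      rw [hsym ((x t).2 a)]
      ring
    rw [h3]
    have := neg_abs_le (J 0)
    linarith
  have hIg := lower_growth hId hJ2
  have hIb : ∀ t, I t ≤ ∑ a, m a * R ^ 2 := by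
    intro t
    refine Finset.sum_le_sum fun a _ => ?_
    rw [ip_self]
    have h1 := pos_le hm (hx.mem t) R (fun a b => hR t a b) a
    have := hm a
    gcongr
  have hI0 : 0 ≤ I t₁ := Finset.sum_nonneg fun a _ => by
    rw [ip_self]; have := hm a; positivity
  set S := ∑ a, m a * R ^ 2 with hS
  have hS0 : 0 ≤ S := Finset.sum_nonneg fun a _ => by have := hm a; positivity
  have h1 := hIg (t₁ + S + 1) (by linarith)
  have h2 := hIb (t₁ + S + 1)
  linarith

end Pool.Agent.Q85.UB
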