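import Pool.Agent.Q85.UB.Seg

/-! Existence of the solution for all positive times. -/

set_option autoImplicit false

namespace Pool.Agent.Q85.UB

open Pool.Agent.W821.TB
open Pool.Agent.Y516.NW (E3 Cfg Mot cm P2)
open Set

theorem le_at {f : ℝ → ℝ} {T K : ℝ} (hT : 0 < T) (hf : ContinuousAt f T) (h : ∀ u ∈ Ico 0 T, f u ≤ K) :
    f T ≤ K := by
  have h1 : Filter.Tendsto f (nhdsWithin T (Iio T)) (nhds (f T)) := hf.continuousWithinAt
  refine le_of_tendsto h1 ?_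
  have h2 : Ioo 0 T ∈ nhdsWithin T (Iio T) := Ioo_mem_nhdsLT hT
  filter_upwards [h2] with u hu
  exact h u ⟨hu.1.le, hu.2⟩

theorem ge_at {f : ℝ → ℝ} {T K : ℝ} (hT : 0 < T) (hf : ContinuousAt f T) (h : ∀ u ∈ Ico 0 T, K ≤ f u) :
    K ≤ f T := by
  have := le_at (f := fun u => - f u) (K := -K) hT hf.neg (fun u hu => by have := h u hu; linarith)
  linarith

theorem fld_eq {ε B : ℝ} (hB : 0 < B) {m : Fin 3 → ℝ} {z : Ph 3} (hv : ∀ i, ‖z.2 i‖ ≤ B)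
    (hq : ∀ i j, i ≠ j → ε ≤ ‖z.1 i - z.1 j‖) : fld ε B m z = (z.2, acc m z.1) := by
  unfold fld
  refine Prod.ext ?_ ?_
  · funext i
    exact cut_eq hB (hv i)
  · funext i
    exact acce_eq hq i

/-- the final theorem on existence -/
theorem exists_sol (m : Fin 3 → ℝ) (M μ : ℝ) (hμ : 0 < μ) (hm : ∀ i, μ ≤ m i) (hM : M = ∑ i, m i)
    (a b c : Fin 3) (hab : a ≠ b) (hca : c ≠ a) (hcb : c ≠ b) (z : Ph 3)
    (hne : ∀ i j, i ≠ j → z.1 i ≠ z.1 j) (hE : energy m z ≤ 0) (w ρ : ℝ) (hw : 0 < w) (hρ : 0 < ρ)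
    (hC : 2000 * (M + M ^ 2 / μ) ≤ w ^ 2 * ρ)
    (hqa : ρ ≤ ‖z.1 c - z.1 a‖) (hqb : ρ ≤ ‖z.1 c - z.1 b‖) (hr : ‖z.1 a - z.1 b‖ ≤ ρ / 128)
    (hin : 0 ≤ inner ℝ (io (prel m z.1 a b c)) (io (prel m z.2 a b c)))
    (hwV : w ≤ ‖prel m z.2 a b c‖)
    (hL : 2 ^ 20 * M ^ 5 / μ ^ 2 ≤ |LM z a b| * (w ^ 5 * ρ ^ 2)) :
    ∃ (γ : ℝ → Ph 3) (η : ℝ), 0 < η ∧ γ 0 = z ∧
      (∀ t, -η < t → (∀ i j, i ≠ j → (γ t).1 i ≠ (γ t).1 j) ∧ HasDerivAt γ ((γ t).2, acc m (γ t).1) t) ∧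
      ∀ t, 0 ≤ t → ∀ i j, P2 a b i j → (ρ / 2 + t * w) / 4 ≤ ‖(γ t).1 i - (γ t).1 j‖ := by
  have hmpos : ∀ i, 0 < m i := fun i => hμ.trans_le (hm i)
  have hM0 : 0 < M := by rw [hM]; exact Finset.sum_pos (fun i _ => hmpos i) ⟨0, Finset.mem_univ _⟩
  have hL0 : 0 < |LM z a b| := by
    by_contra hcon
    have h1 : |LM z a b| = 0 := le_antisymm (not_lt.mp hcon) (abs_nonneg _)
    rw [h1, zero_mul] at hL
    have : 0 < 2 ^ 20 * M ^ 5 / μ ^ 2 := by positivity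
    linarith
  obtain ⟨L0, hL0d⟩ : ∃ L0, L0 = |LM z a b| := ⟨_, rfl⟩
  rw [← hL0d] at hL hL0
  obtain ⟨ε, hεd⟩ : ∃ ε, ε = μ * L0 ^ 2 / (320 * M ^ 2) := ⟨_, rfl⟩
  have hε : 0 < ε := by rw [hεd]; positivity
  obtain ⟨B, hBd⟩ : ∃ B, B = Real.sqrt (10 * M ^ 2 / (μ * ε)) := ⟨_, rfl⟩
  have hB0 : 0 < 10 * M ^ 2 / (μ * ε) := by positivity
  have hB : 0 < B := by rw [hBd]; exact Real.sqrt_pos.mpr hB0
  have hB2 : B ^ 2 = 10 * M ^ 2 / (μ * ε) := by rw [hBd, Real.sq_sqrt hB0.le]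
  -- what `stat` gives
  have hstat : ∀ y : Ph 3, y.1 a ≠ y.1 b → energy m y ≤ 0 → (∀ i j, P2 a b i j → ρ / 8 ≤ ‖y.1 i - y.1 j‖) →
      ‖y.1 a - y.1 b‖ ≤ ρ → L0 / 2 ≤ |LM y a b| →
      (∀ i, ‖y.2 i‖ < B) ∧ ε < ‖y.1 a - y.1 b‖ := by
    intro y h1 h2 h3 h4 h5
    obtain ⟨k1, k2⟩ := stat m M μ hμ hm hM a b hab y h1 h2 ρ hρ h3 h4
    have hr0 : 0 < ‖y.1 a - y.1 b‖ := norm_pos_iff.mpr (sub_ne_zero.mpr h1)
    have k3 : (L0 / 2) ^ 2 ≤ (LM y a b) ^ 2 := by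
      rw [← sq_abs (LM y a b)]
      gcongr
    have k4 : 2 * ε ≤ ‖y.1 a - y.1 b‖ := by
      rw [hεd]
      have e1 : 2 * (μ * L0 ^ 2 / (320 * M ^ 2)) = μ * (L0 / 2) ^ 2 / (40 * M ^ 2) := by field_simp; ring
      rw [e1, div_le_iff₀ (by positivity)]
      have e2 : μ * (L0 / 2) ^ 2 ≤ μ * (LM y a b) ^ 2 := by gcongr
      linarith
    refine ⟨fun i => ?_, by linarith⟩
    have k5 := k1 i
    have k6 : 10 * M ^ 2 / (μ * ‖y.1 a - y.1 b‖) < 10 * M ^ 2 / (μ * ε) := by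
      apply div_lt_div_of_pos_left (by positivity) (by positivity)
      have : ε < ‖y.1 a - y.1 b‖ := by linarith
      exact mul_lt_mul_of_pos_left this hμ
    have k7 : ‖y.2 i‖ ^ 2 < B ^ 2 := by rw [hB2]; linarith
    exact (sq_lt_sq₀ (norm_nonneg _) hB.le).mp k7
  have hpair : ∀ i j : Fin 3, P2 a b i j → ρ ≤ ‖z.1 i - z.1 j‖ := by
    intro i j hP
    have hi := Pool.Agent.Q130.NX.fin3 a b c hab hca hcb i
    have hj := Pool.Agent.Q130.NX.fin3 a b c hab hca hcb j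
    obtain ⟨h1, h2, h3⟩ := hP
    rcases hi with rfl | rfl | rfl <;> rcases hj with rfl | rfl | rfl
    · exact absurd rfl h1
    · exact absurd ⟨rfl, rfl⟩ h2
    · rw [norm_sub_rev]; exact hqa
    · exact absurd ⟨rfl, rfl⟩ h3
    · exact absurd rfl h1
    · rw [norm_sub_rev]; exact hqb
    · exact hqa
    · exact hqb
    · exact absurd rfl h1
  have hdisj : ∀ i j : Fin 3, i ≠ j → P2 a b i j ∨ (i = a ∧ j = b) ∨ (i = b ∧ j = a) := by
    intro i j hij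
    by_cases h1 : i = a ∧ j = b
    · exact Or.inr (Or.inl h1)
    · by_cases h2 : i = b ∧ j = a
      · exact Or.inr (Or.inr h2)
      · exact Or.inl ⟨hij, h1, h2⟩
  have hinit := hstat z (hne a b hab) hE (fun i j h => by have := hpair i j h; linarith) (by linarith)
    (by rw [← hL0d]; linarith)
  have hερ : ε < ρ / 8 := by
    obtain ⟨k1, k2⟩ := stat m M μ hμ hm hM a b hab z (hne a b hab) hE ρ hρ
      (fun i j h => by have := hpair i j h; linarith) (by linarith)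
    linarith [hinit.2]
  obtain ⟨γ, hγ0, hγ⟩ := exists_glob hε hB m hmpos z
  have hcont : Continuous γ := continuous_iff_continuousAt.mpr fun t => (hγ t).continuousAt
  have hq : ∀ i, Continuous fun t => (γ t).1 i := fun i =>
    (continuous_apply i).comp (continuous_fst.comp hcont)
  have hv : ∀ i, Continuous fun t => (γ t).2 i := fun i =>
    (continuous_apply i).comp (continuous_snd.comp hcont)
  let ι := Fin 3 ⊕ {p : Fin 3 × Fin 3 // p.1 ≠ p.2}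
  let g : ι → ℝ → ℝ := fun k t => Sum.elim (fun i => B - ‖(γ t).2 i‖)
    (fun p => ‖(γ t).1 p.1.1 - (γ t).1 p.1.2‖ - ε) k
  have hgc : ∀ k, Continuous (g k) := by
    rintro (i | p)
    · exact continuous_const.sub (hv i).norm
    · exact ((hq _).sub (hq _)).norm.sub continuous_const
  have hall : ∀ y : Ph 3, (∀ i j, P2 a b i j → ρ / 8 ≤ ‖y.1 i - y.1 j‖) → ((∀ i, ‖y.2 i‖ < B) ∧ ε < ‖y.1 a - y.1 b‖) →
      (∀ i, 0 < B - ‖y.2 i‖) ∧ ∀ p : {p : Fin 3 × Fin 3 // p.1 ≠ p.2}, 0 < ‖y.1 p.1.1 - y.1 p.1.2‖ - ε := by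
    intro y h1 h2
    refine ⟨fun i => by have := h2.1 i; linarith, ?_⟩
    rintro ⟨⟨i, j⟩, hij⟩
    rcases hdisj i j hij with h | h | h
    · have := h1 i j h
      show 0 < ‖y.1 i - y.1 j‖ - ε
      linarith
    · obtain ⟨rfl, rfl⟩ := h
      have := h2.2
      show 0 < ‖y.1 i - y.1 j‖ - ε
      linarith
    · obtain ⟨rfl, rfl⟩ := h
      have := h2.2
      show 0 < ‖y.1 i - y.1 j‖ - ε
      rw [norm_sub_rev]
      linarith
  have hg0 : ∀ k, 0 < g k 0 := by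
    have h1 := hall z (fun i j h => by have := hpair i j h; linarith) hinit
    rintro (i | p)
    · show 0 < B - ‖(γ 0).2 i‖
      rw [hγ0]; exact h1.1 i
    · show 0 < ‖(γ 0).1 p.1.1 - (γ 0).1 p.1.2‖ - ε
      rw [hγ0]; exact h1.2 p
  -- backwards for a short time
  obtain ⟨η, hη, hηg⟩ : ∃ η > 0, ∀ t, -η < t → t ≤ 0 → ∀ k, 0 ≤ g k t := by
    have h1 : ∀ᶠ t in nhds (0 : ℝ), ∀ k, 0 < g k t := by
      rw [Filter.eventually_all]
      exact fun k => (hgc k).continuousAt.eventually (lt_mem_nhds (hg0 k))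
    obtain ⟨η, hη, h2⟩ := Metric.eventually_nhds_iff.mp h1
    refine ⟨η, hη, fun t ht ht0 k => (h2 ?_ k).le⟩
    rw [Real.dist_eq, sub_zero, abs_of_nonpos ht0]
    linarith
  have hgood : ∀ t, (∀ k, 0 ≤ g k t) → (∀ i j, i ≠ j → (γ t).1 i ≠ (γ t).1 j) ∧
      HasDerivAt γ ((γ t).2, acc m (γ t).1) t := by
    intro t ht
    have h1 : ∀ i, ‖(γ t).2 i‖ ≤ B := fun i => by
      have : 0 ≤ B - ‖(γ t).2 i‖ := ht (Sum.inl i)
      linarith
    have h2 : ∀ i j, i ≠ j → ε ≤ ‖(γ t).1 i - (γ t).1 j‖ := fun i j hij => by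
      have : 0 ≤ ‖(γ t).1 i - (γ t).1 j‖ - ε := ht (Sum.inr ⟨(i, j), hij⟩)
      linarith
    refine ⟨fun i j hij h => ?_, ?_⟩
    · have := h2 i j hij
      rw [h, sub_self, norm_zero] at this
      linarith
    · have := hγ t
      rwa [fld_eq hB h1 h2] at this
  have hseg : ∀ T, 0 < T → (∀ t, 0 ≤ t → t < T → ∀ k, 0 ≤ g k t) → ∀ u ∈ Ico 0 T, energy m (γ u) ≤ 0 ∧
      (∀ i j, P2 a b i j → (ρ / 2 + u * w) / 4 ≤ ‖(γ u).1 i - (γ u).1 j‖) ∧
      ‖(γ u).1 a - (γ u).1 b‖ ≤ 32 * M ^ 2 / (μ * w ^ 2) := by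
    intro T hT hg
    have h1 : ∀ t ∈ Ioo (-η) T, ∀ k, 0 ≤ g k t := by
      intro t ht
      rcases le_or_gt t 0 with h | h
      · exact hηg t ht.1 h
      · exact hg t h.le ht.2
    refine seg m M μ hμ hm hM a b c hab hca hcb (α := -η) (by linarith) hT (fun t ht => (hgood t (h1 t ht)).1)
      (fun t ht => (hgood t (h1 t ht)).2) ?_ w ρ hw hρ hC ?_ ?_ ?_ ?_ ?_ <;> rw [hγ0] <;> assumption
  have hboot := Pool.Agent.Y275.NW.boot ι g hgc hg0 (by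
    intro T hT0 hg
    rcases hT0.eq_or_lt with h | hT
    · rw [← h]; exact hg0
    have hs := hseg T hT (fun t h0 h1 => hg t h0 h1.le)
    have hgT := hgood T (hg T hT0 le_rfl)
    have hcg : ContinuousOn γ (Icc 0 T) := hcont.continuousOn
    have hP1 : P2 a b c a := ⟨hca, fun h => hca h.1, fun h => hcb h.1⟩
    have hP2 : P2 a b c b := ⟨hcb, fun h => hca h.1, fun h => hcb h.1⟩
    have hLc := LM_change hmpos hT0 a b c hab hca hcb w ρ (32 * M ^ 2 / (μ * w ^ 2)) hw hρ hcg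
      (fun t ht => (hgood t (hg t ht.1 ht.2.le)).2) (fun t ht => (hs t ht).2.1 c a hP1)
      (fun t ht => (hs t ht).2.1 c b hP2) (fun t ht => (hs t ht).2.2)
    have hmc : m c ≤ M := hM ▸ Finset.single_le_sum (fun i _ => (hmpos i).le) (Finset.mem_univ c)
    have hch : 512 * m c * (32 * M ^ 2 / (μ * w ^ 2)) ^ 2 / (w * ρ ^ 2) ≤ L0 / 2 := by
      have e1 : 512 * m c * (32 * M ^ 2 / (μ * w ^ 2)) ^ 2 / (w * ρ ^ 2) ≤
          512 * M * (32 * M ^ 2 / (μ * w ^ 2)) ^ 2 / (w * ρ ^ 2) := by gcongr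
      refine e1.trans ?_
      have e2 : 512 * M * (32 * M ^ 2 / (μ * w ^ 2)) ^ 2 / (w * ρ ^ 2) =
          (2 ^ 20 * M ^ 5 / μ ^ 2) / (w ^ 5 * ρ ^ 2) / 2 := by field_simp; ring
      rw [e2]
      have e3 : 2 ^ 20 * M ^ 5 / μ ^ 2 / (w ^ 5 * ρ ^ 2) ≤ L0 := by
        rw [div_le_iff₀ (by positivity)]
        exact hL
      linarith
    have hLT : L0 / 2 ≤ |LM (γ T) a b| := by
      rw [hγ0] at hLc
      have e1 : L0 ≤ |LM (γ T) a b - LM z a b| + |LM (γ T) a b| := by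
        rw [hL0d]
        have : LM z a b = -(LM (γ T) a b - LM z a b) + LM (γ T) a b := by ring
        calc |LM z a b| = |-(LM (γ T) a b - LM z a b) + LM (γ T) a b| := by rw [← this]
          _ ≤ _ := by
            refine (abs_add_le _ _).trans ?_
            rw [abs_neg]
      linarith
    have hET : energy m (γ T) ≤ 0 := by
      refine le_at (f := fun u => energy m (γ u)) hT ?_ (fun u hu => (hs u hu).1)
      exact (hasDerivAt_energy (m := m) (fun i => fst_deriv hgT.2 i) (fun i => snd_deriv hgT.2 i)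
        hgT.1).continuousAt
    have hdT : ∀ i j, P2 a b i j → ρ / 8 ≤ ‖(γ T).1 i - (γ T).1 j‖ := by
      intro i j hP
      refine ge_at (f := fun u => ‖(γ u).1 i - (γ u).1 j‖) hT ((hq i).sub (hq j)).norm.continuousAt
        (fun u hu => ?_)
      have e1 := (hs u hu).2.1 i j hP
      have e2 : 0 ≤ u * w := mul_nonneg hu.1 hw.le
      show ρ / 8 ≤ ‖(γ u).1 i - (γ u).1 j‖
      linarith
    have hrT : ‖(γ T).1 a - (γ T).1 b‖ ≤ ρ := by
      refine le_at (f := fun u => ‖(γ u).1 a - (γ u).1 b‖) hT ((hq a).sub (hq b)).norm.continuousAt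
        (fun u hu => ?_)
      have e1 := (hs u hu).2.2
      refine e1.trans ?_
      rw [div_le_iff₀ (by positivity)]
      have e3 : 2000 * (M ^ 2 / μ) ≤ w ^ 2 * ρ := by linarith
      have e4 : μ * (2000 * (M ^ 2 / μ)) ≤ μ * (w ^ 2 * ρ) := by gcongr
      have e5 : μ * (2000 * (M ^ 2 / μ)) = 2000 * M ^ 2 := by field_simp
      nlinarith [sq_nonneg M]
    have hfin := hall (γ T) hdT (hstat (γ T) (hgT.1 a b hab) hET hdT hrT hLT)
    rintro (i | p)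
    · exact hfin.1 i
    · exact hfin.2 p)
  refine ⟨γ, η, hη, hγ0, fun t ht => ?_, fun t ht => ?_⟩
  · refine hgood t ?_
    rcases le_or_gt t 0 with h | h
    · exact hηg t ht h
    · exact fun k => (hboot t h.le k).le
  · exact (hseg (t + 1) (by linarith) (fun s hs _ k => (hboot s hs k).le) t ⟨ht, by linarith⟩).2.1

end Pool.Agent.Q85.UB
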