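import Pool.Agent.Q85.UB.Bdd

/-! Bounded solutions of the planar three-body problem: the velocity bound. -/

set_option autoImplicit false

namespace Pool.Agent.Q85.UB

open Pool.Agent.W821.TB
open Pool.Agent.Y516.NW (E3 Cfg Mot cm P2)
open Pool.Agent.Q130.NX (FG fin3 curve relvel)

theorem rel_deriv (m : Fin 3 → ℝ) (u : ℝ → Cfg 3) (u' : Cfg 3) (t : ℝ) (a b c : Fin 3)
    (h : ∀ i, HasDerivAt (fun s => u s i) (u' i) t) :
    HasDerivAt (fun s => rel m (u s) a b c) (rel m u' a b c) t := by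
  unfold rel
  exact (h c).sub ((((h a).const_smul (m a)).add ((h b).const_smul (m b))).const_smul ((m a + m b)⁻¹))

theorem prel_le (m : Fin 3 → ℝ) (hm : ∀ i, 0 < m i) (q : Fin 3 → ℂ) (R : ℝ)
    (hR : ∀ a b, ‖q a - q b‖ ≤ R) (a b c : Fin 3) : ‖prel m q a b c‖ ≤ R := by
  have ha := hm a
  have hb := hm b
  have hs : (0 : ℝ) < m a + m b := by linarith
  have hsc : ((m a : ℂ) + (m b : ℂ)) ≠ 0 := by
    rw [← Complex.ofReal_add]
    exact Complex.ofReal_ne_zero.mpr hs.ne'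
  have h1 : ((m a : ℂ) + (m b : ℂ)) * prel m q a b c = (m a : ℂ) * (q c - q a) + (m b : ℂ) * (q c - q b) := by
    unfold prel
    rw [mul_sub, mul_div_cancel₀ _ hsc]
    ring
  have h2 : (m a + m b) * ‖prel m q a b c‖ ≤ (m a + m b) * R := by
    have h3 : ‖((m a : ℂ) + (m b : ℂ)) * prel m q a b c‖ = (m a + m b) * ‖prel m q a b c‖ := by
      rw [norm_mul, ← Complex.ofReal_add, Complex.norm_real, Real.norm_of_nonneg hs.le]
    rw [← h3, h1, add_mul]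
    refine (norm_add_le _ _).trans (add_le_add ?_ ?_)
    · rw [norm_mul, Complex.norm_real, Real.norm_of_nonneg ha.le]
      exact mul_le_mul_of_nonneg_left (hR c a) ha.le
    · rw [norm_mul, Complex.norm_real, Real.norm_of_nonneg hb.le]
      exact mul_le_mul_of_nonneg_left (hR c b) hb.le
  exact le_of_mul_le_mul_left h2 hs

/-- a tight pair, and a third body with a large relative velocity: the solution is not bounded -/
theorem not_bdd (m : Fin 3 → ℝ) (M μ : ℝ) (hμ : 0 < μ) (hm : ∀ i, μ ≤ m i) (hM : ∑ i, m i ≤ M)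
    (a b c : Fin 3) (hab : a ≠ b) (hca : c ≠ a) (hcb : c ≠ b)
    (q v : ℝ → Cfg 3) (E : ℝ) (hE : E ≤ 0) (hmot : Mot m E q v (fun _ => 1) (fun t => t))
    (w ρ : ℝ) (hw : 0 < w) (hρ : 0 < ρ) (hC : 2000 * (M + M ^ 2 / μ) ≤ w ^ 2 * ρ)
    (hqa : ρ ≤ ‖q 0 c - q 0 a‖) (hqb : ρ ≤ ‖q 0 c - q 0 b‖) (hr : ‖q 0 a - q 0 b‖ ≤ ρ / 128)
    (hin : 0 ≤ inner ℝ (rel m (q 0) a b c) (rel m (v 0) a b c)) (hwV : w ≤ ‖rel m (v 0) a b c‖)
    (R : ℝ) (hR : ∀ t, ‖rel m (q t) a b c‖ ≤ R) : False := by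
  have h1 := esc m M μ hμ hm hM a b c hab hca hcb q v _ _ E hE hmot w ρ hw hρ hC hqa hqb hr hin hwV
  set W := rel m (v 0) a b c with hW
  have hWpos : 0 < ‖W‖ := hw.trans_le hwV
  have hd : ∀ t, HasDerivAt (fun s => inner ℝ (rel m (q s) a b c) W) (inner ℝ (rel m (v t) a b c) W) t := by
    intro t
    have h2 := rel_deriv m q (v t) t a b c (fun i => by
      have := hmot.qd t i
      rwa [one_smul] at this)
    have h3 := h2.inner ℝ (hasDerivAt_const t W)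
    simpa using h3
  have hge : ∀ t, (0 : ℝ) ≤ t → 7 / 8 * ‖W‖ ^ 2 ≤ inner ℝ (rel m (v t) a b c) W := by
    intro t ht
    have h2 := h1 t ht
    have h3 : inner ℝ (rel m (v t) a b c) W = ‖W‖ ^ 2 + inner ℝ (rel m (v t) a b c - W) W := by
      rw [inner_sub_left, real_inner_self_eq_norm_sq]; ring
    have h4 := abs_real_inner_le_norm (rel m (v t) a b c - W) W
    have h5 := neg_abs_le (inner ℝ (rel m (v t) a b c - W) W)
    have h6 : ‖rel m (v t) a b c - W‖ * ‖W‖ ≤ ‖W‖ / 8 * ‖W‖ := by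
      gcongr
      linarith
    rw [h3]
    nlinarith
  have hg := lower_growth hd hge
  have h7 : ∀ t, inner ℝ (rel m (q t) a b c) W ≤ R * ‖W‖ := fun t =>
    (real_inner_le_norm _ _).trans (by gcongr; exact hR t)
  have hR0 : 0 ≤ R := (norm_nonneg _).trans (hR 0)
  have h8 := hg ((R * ‖W‖ + 1) / (7 / 8 * ‖W‖ ^ 2)) (by positivity)
  have h9 := h7 ((R * ‖W‖ + 1) / (7 / 8 * ‖W‖ ^ 2))
  rw [sub_zero, mul_div_cancel₀ _ (by positivity)] at h8
  linarith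

theorem bound0 (m : Fin 3 → ℝ) (hm : ∀ i, 0 < m i) : ∃ C : ℝ, 0 < C ∧ ∀ x : ℝ → Ph 3, IsSol m Set.univ x → Bdd x →
    ∀ a b c : Fin 3, a ≠ b → c ≠ a → c ≠ b →
      ‖prel m (x 0).2 a b c‖ ^ 2 * min ‖(x 0).1 c - (x 0).1 a‖ ‖(x 0).1 c - (x 0).1 b‖ ≤ C := by
  obtain ⟨μ, hμ, hμm⟩ : ∃ μ : ℝ, 0 < μ ∧ ∀ i, μ ≤ m i := by
    obtain ⟨μi, _, hμi⟩ := Finset.exists_min_image Finset.univ m ⟨0, Finset.mem_univ _⟩
    exact ⟨m μi, hm μi, fun i => hμi i (Finset.mem_univ _)⟩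
  obtain ⟨M, hMdef⟩ : ∃ M : ℝ, M = ∑ i, m i := ⟨_, rfl⟩
  have hM : 0 < M := by
    rw [hMdef]; exact Finset.sum_pos (fun i _ => hm i) ⟨0, Finset.mem_univ _⟩
  obtain ⟨A, hA⟩ : ∃ A : ℝ, A = M + M ^ 2 / μ := ⟨_, rfl⟩
  have hApos : 0 < A := by
    rw [hA]; have : 0 ≤ M ^ 2 / μ := div_nonneg (sq_nonneg _) hμ.le
    linarith
  obtain ⟨C, hC⟩ : ∃ C : ℝ, C = 16000 * A + 10000 * M ^ 2 / μ := ⟨_, rfl⟩
  have hCpos : 0 < C := by rw [hC]; positivity
  refine ⟨C, hCpos, ?_⟩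
  intro x hx hbd a b c hab hca hcb
  have hE := energy_le hm hx hbd
  obtain ⟨R, hR⟩ := hbd
  have hne := (hx.mem 0).1
  obtain ⟨ρ, hρ⟩ : ∃ ρ : ℝ, ρ = min ‖(x 0).1 c - (x 0).1 a‖ ‖(x 0).1 c - (x 0).1 b‖ := ⟨_, rfl⟩
  have hca0 : 0 < ‖(x 0).1 c - (x 0).1 a‖ := norm_pos_iff.mpr (sub_ne_zero.mpr (hne c a hca))
  have hcb0 : 0 < ‖(x 0).1 c - (x 0).1 b‖ := norm_pos_iff.mpr (sub_ne_zero.mpr (hne c b hcb))
  have hab0 : 0 < ‖(x 0).1 a - (x 0).1 b‖ := norm_pos_iff.mpr (sub_ne_zero.mpr (hne a b hab))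
  have hρ0 : 0 < ρ := by rw [hρ]; exact lt_min hca0 hcb0
  have hρa : ρ ≤ ‖(x 0).1 c - (x 0).1 a‖ := by rw [hρ]; exact min_le_left _ _
  have hρb : ρ ≤ ‖(x 0).1 c - (x 0).1 b‖ := by rw [hρ]; exact min_le_right _ _
  rw [← hρ]
  obtain ⟨W, hW⟩ : ∃ W : ℂ, W = prel m (x 0).2 a b c := ⟨_, rfl⟩
  rw [← hW]
  by_contra hcon
  push Not at hcon
  by_cases hr : ‖(x 0).1 a - (x 0).1 b‖ ≤ ρ / 128
  · -- tight pair
    obtain ⟨w2, hw2⟩ : ∃ w2 : ℝ, w2 = 16000 * A / ρ := ⟨_, rfl⟩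
    have hw2pos : 0 < w2 := by rw [hw2]; positivity
    have hWw : Real.sqrt w2 ≤ ‖W‖ := by
      refine Real.sqrt_le_iff.mpr ⟨norm_nonneg _, ?_⟩
      rw [hw2, div_le_iff₀ hρ0]
      refine le_trans ?_ hcon.le
      rw [hC]
      have : 0 ≤ 10000 * M ^ 2 / μ := by positivity
      linarith
    obtain ⟨σ, hσ, hσin⟩ : ∃ σ : ℝ, σ * σ = 1 ∧
        0 ≤ σ * inner ℝ (io (prel m (x 0).1 a b c)) (io W) := by
      by_cases h : 0 ≤ inner ℝ (io (prel m (x 0).1 a b c)) (io W)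
      · exact ⟨1, by norm_num, by linarith⟩
      · exact ⟨-1, by norm_num, by linarith⟩
    have hmot := mot hx σ hσ
    have hσn : ‖(σ : ℂ)‖ = 1 := by
      have : |σ| * |σ| = 1 := by rw [← abs_mul, hσ, abs_one]
      rw [Complex.norm_real, Real.norm_eq_abs]
      nlinarith [abs_nonneg σ]
    have hrelv : rel m (fun i => io ((σ : ℂ) * (x (σ * 0)).2 i)) a b c = σ • io W := by
      rw [rel_io m (fun i => (σ : ℂ) * (x (σ * 0)).2 i)]
      rw [← map_smul, mul_zero, hW]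
      congr 1
      unfold prel
      rw [Complex.real_smul]
      ring
    have hrelq : ∀ t, rel m (fun i => io ((x (σ * t)).1 i)) a b c = io (prel m (x (σ * t)).1 a b c) := fun t =>
      rel_io m (x (σ * t)).1 a b c
    have hnW : ‖σ • io W‖ = ‖W‖ := by
      rw [norm_smul, io_norm, ← Complex.norm_real, hσn, one_mul]
    refine not_bdd m M μ hμ hμm hMdef.ge a b c hab hca hcb _ _ _ hE hmot (Real.sqrt w2) ρ
      (Real.sqrt_pos.mpr hw2pos) hρ0 ?_ ?_ ?_ ?_ ?_ ?_ R ?_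
    · rw [Real.sq_sqrt hw2pos.le, hw2, ← hA]
      have : 16000 * A / ρ * ρ = 16000 * A := by field_simp
      rw [this]
      linarith
    · simp only [mul_zero]
      rw [io_sub]; exact hρa
    · simp only [mul_zero]
      rw [io_sub]; exact hρb
    · simp only [mul_zero]
      rw [io_sub]; exact hr
    · rw [hrelv, hrelq, mul_zero, inner_smul_right]
      exact hσin
    · rw [hrelv, hnW]; exact hWw
    · intro t
      rw [hrelq, io_norm]
      exact prel_le m hm _ R (fun a b => hR (σ * t) a b) a b c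
  · -- all distances are large
    push Not at hr
    have hmot := mot hx 1 (by norm_num)
    have hen := hmot.en 0
    simp only [mul_zero, Complex.ofReal_one, one_mul] at hen
    have hpair : ∀ i j : Fin 3, P2 a b i j → ρ ≤ ‖io ((x 0).1 i) - io ((x 0).1 j)‖ := by
      intro i j hP
      rw [io_sub]
      have hi := fin3 a b c hab hca hcb i
      have hj := fin3 a b c hab hca hcb j
      obtain ⟨h1, h2, h3⟩ := hP
      rcases hi with rfl | rfl | rfl <;> rcases hj with rfl | rfl | rfl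
      · exact absurd rfl h1
      · exact absurd ⟨rfl, rfl⟩ h2
      · rw [norm_sub_rev]; exact hρa
      · exact absurd ⟨rfl, rfl⟩ h3
      · exact absurd rfl h1
      · rw [norm_sub_rev]; exact hρb
      · exact hρa
      · exact hρb
      · exact absurd rfl h1
    have h1 := Pool.Agent.Y421.NW.pot (q := fun i => io ((x 0).1 i)) hm hab (d := 4 * ρ) (by positivity)
      (fun i j h => by have := hpair i j h; linarith)
    rw [← hMdef] at h1
    have h5 : m a * m b ≤ M ^ 2 := by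
      have e1 : m a ≤ M := hMdef ▸ Finset.single_le_sum (fun i _ => (hm i).le) (Finset.mem_univ a)
      have e2 : m b ≤ M := hMdef ▸ Finset.single_le_sum (fun i _ => (hm i).le) (Finset.mem_univ b)
      have := mul_le_mul e1 e2 (hm b).le hM.le
      nlinarith
    have h6 : m a * m b / ‖io ((x 0).1 a) - io ((x 0).1 b)‖ ≤ 128 * M ^ 2 / ρ := by
      rw [io_sub, div_le_div_iff₀ hab0 hρ0]
      have e1 : m a * m b * ρ ≤ M ^ 2 * ρ := mul_le_mul_of_nonneg_right h5 hρ0.le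
      have e2 : M ^ 2 * (ρ / 128) ≤ M ^ 2 * ‖(x 0).1 a - (x 0).1 b‖ := by gcongr
      linarith
    have h7 : 2 * M ^ 2 / (4 * ρ) = M ^ 2 / ρ / 2 := by field_simp; ring
    have h8 : 128 * M ^ 2 / ρ = 128 * (M ^ 2 / ρ) := by ring
    have h11 : ∑ i, m i * ‖io ((x 0).2 i)‖ ^ 2 / 2 ≤ 129 * (M ^ 2 / ρ) := by
      rw [h7] at h1
      have : 0 ≤ M ^ 2 / ρ := by positivity
      linarith
    have h12 := relvel m μ hμ hμm a b c (fun i => io ((x 0).2 i))
    have h12' : ‖rel m (fun i => io ((x 0).2 i)) a b c‖ ^ 2 ≤ 8 / μ * ∑ i, m i * ‖io ((x 0).2 i)‖ ^ 2 / 2 := h12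
    rw [rel_io, io_norm, ← hW] at h12'
    have h13 : ‖W‖ ^ 2 ≤ 8 / μ * (129 * (M ^ 2 / ρ)) :=
      h12'.trans (mul_le_mul_of_nonneg_left h11 (by positivity))
    have h14 : ‖W‖ ^ 2 * ρ ≤ 8 / μ * (129 * (M ^ 2 / ρ)) * ρ := mul_le_mul_of_nonneg_right h13 hρ0.le
    have h15 : 8 / μ * (129 * (M ^ 2 / ρ)) * ρ = 1032 * M ^ 2 / μ := by field_simp; ring
    rw [h15] at h14
    have h16 : 1032 * M ^ 2 / μ ≤ 10000 * M ^ 2 / μ := by gcongr; norm_num
    have h17 : 0 ≤ 16000 * A := by positivity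
    rw [hC] at hcon
    linarith

end Pool.Agent.Q85.UB
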