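import Pool.Agent.Q85.UB.Boot3

/-! The centre of mass; the set of good states is open. -/

set_option autoImplicit false

namespace Pool.Agent.Q85.UB

open Pool.Agent.W821.TB
open Pool.Agent.Y516.NW (E3 Cfg Mot cm P2)
open Set

theorem sum_acc3 (m : Fin 3 → ℝ) (q : Fin 3 → ℂ) : ∑ i, (m i : ℂ) * acc m q i = 0 := by
  rw [Fin.sum_univ_three, acc3 m q 0 1 2 (by decide) (by decide) (by decide),
    acc3 m q 1 0 2 (by decide) (by decide) (by decide), acc3 m q 2 0 1 (by decide) (by decide) (by decide),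
    norm_sub_rev (q 0) (q 1), norm_sub_rev (q 0) (q 2), norm_sub_rev (q 1) (q 2)]
  push_cast
  ring

theorem com_const {m : Fin 3 → ℝ} {γ : ℝ → Ph 3} {η : ℝ} (hη : 0 < η)
    (hsol : ∀ t, -η < t → (∀ i j, i ≠ j → (γ t).1 i ≠ (γ t).1 j) ∧ HasDerivAt γ ((γ t).2, acc m (γ t).1) t)
    (h0 : γ 0 ∈ phaseSpace m) : ∀ t, -η < t → γ t ∈ phaseSpace m := by
  have h0I : (0 : ℝ) ∈ Ioi (-η) := by rw [mem_Ioi]; linarith
  have hv : ∀ t, -η < t → ∑ i, (m i : ℂ) * (γ t).2 i = 0 := by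
    have hd : ∀ t ∈ Ioi (-η), HasDerivAt (fun s => ∑ i, (m i : ℂ) * (γ s).2 i) 0 t := by
      intro t ht
      have h1 := HasDerivAt.fun_sum (u := Finset.univ) (fun i _ =>
        ((snd_deriv (hsol t ht).2 i).const_mul (m i : ℂ)))
      refine h1.congr_deriv ?_
      exact sum_acc3 m (γ t).1
    intro t ht
    have h2 := isOpen_Ioi.is_const_of_deriv_eq_zero (convex_Ioi (-η)).isPreconnected
      (fun s hs => (hd s hs).differentiableAt.differentiableWithinAt) (fun s hs => (hd s hs).deriv) ht h0I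
    rw [h2]
    exact h0.2.2
  have hq : ∀ t, -η < t → ∑ i, (m i : ℂ) * (γ t).1 i = 0 := by
    have hd : ∀ t ∈ Ioi (-η), HasDerivAt (fun s => ∑ i, (m i : ℂ) * (γ s).1 i) 0 t := by
      intro t ht
      have h1 := HasDerivAt.fun_sum (u := Finset.univ) (fun i _ =>
        ((fst_deriv (hsol t ht).2 i).const_mul (m i : ℂ)))
      refine h1.congr_deriv ?_
      exact hv t ht
    intro t ht
    have h2 := isOpen_Ioi.is_const_of_deriv_eq_zero (convex_Ioi (-η)).isPreconnected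
      (fun s hs => (hd s hs).differentiableAt.differentiableWithinAt) (fun s hs => (hd s hs).deriv) ht h0I
    rw [h2]
    exact h0.2.1
  exact fun t ht => ⟨(hsol t ht).1, hq t ht, hv t ht⟩

/-- the good states -/
def good (m : Fin 3 → ℝ) (a b c : Fin 3) (w ρ K : ℝ) : Set (Ph 3) :=
  {z | ∀ i j, i ≠ j → z.1 i ≠ z.1 j} ∩ {z | energy m z < 0} ∩ {z | ρ < ‖z.1 c - z.1 a‖} ∩
    {z | ρ < ‖z.1 c - z.1 b‖} ∩ {z | ‖z.1 a - z.1 b‖ < ρ / 128} ∩
    {z | 0 < inner ℝ (io (prel m z.1 a b c)) (io (prel m z.2 a b c))} ∩ {z | w < ‖prel m z.2 a b c‖} ∩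
    {z | K < |LM z a b| * (w ^ 5 * ρ ^ 2)}

theorem energy_cont (m : Fin 3 → ℝ) : ContinuousOn (energy m) {z : Ph 3 | ∀ i j, i ≠ j → z.1 i ≠ z.1 j} := by
  unfold energy upot
  refine ContinuousOn.sub ?_ ?_
  · fun_prop
  · refine ContinuousOn.div_const ?_ _
    refine continuousOn_finsetSum _ fun i _ => continuousOn_finsetSum _ fun j hj => ?_
    refine ContinuousOn.div (by fun_prop) (by fun_prop) fun z hz => ?_
    exact norm_ne_zero_iff.mpr (sub_ne_zero.mpr (hz j i (Finset.ne_of_mem_erase hj)))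

theorem good_open (m : Fin 3 → ℝ) (a b c : Fin 3) (w ρ K : ℝ) : IsOpen (good m a b c w ρ K) := by
  have hio : Continuous io := io.continuous_of_finiteDimensional
  have h1 : IsOpen {z : Ph 3 | ∀ i j, i ≠ j → z.1 i ≠ z.1 j} := by
    have : {z : Ph 3 | ∀ i j, i ≠ j → z.1 i ≠ z.1 j} = ⋂ i, ⋂ j, {z : Ph 3 | i ≠ j → z.1 i ≠ z.1 j} := by
      ext z; simp only [mem_iInter, mem_ofPred_eq]
    rw [this]
    refine isOpen_iInter_of_finite fun i => isOpen_iInter_of_finite fun j => ?_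
    by_cases h : i = j
    · simp [h]
    · simp only [ne_eq, h, not_false_eq_true, forall_const]
      exact isOpen_ne_fun (by fun_prop) (by fun_prop)
  have h2 : IsOpen ({z : Ph 3 | ∀ i j, i ≠ j → z.1 i ≠ z.1 j} ∩ {z | energy m z < 0}) :=
    (energy_cont m).isOpen_inter_preimage h1 isOpen_Iio
  have hp1 : Continuous fun z : Ph 3 => prel m z.1 a b c := by unfold prel; fun_prop
  have hp2 : Continuous fun z : Ph 3 => prel m z.2 a b c := by unfold prel; fun_prop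
  unfold good
  refine (((((h2.inter ?_).inter ?_).inter ?_).inter ?_).inter ?_).inter ?_
  · exact isOpen_lt continuous_const (by fun_prop)
  · exact isOpen_lt continuous_const (by fun_prop)
  · exact isOpen_lt (by fun_prop) continuous_const
  · exact isOpen_lt continuous_const ((hio.comp hp1).inner (hio.comp hp2))
  · exact isOpen_lt continuous_const hp2.norm
  · refine isOpen_lt continuous_const ?_
    unfold LM
    have h3 : Continuous fun z : Ph 3 => ((starRingEnd ℂ) (z.1 b - z.1 a) * (z.2 b - z.2 a)).im :=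
      Complex.continuous_im.comp ((Complex.continuous_conj.comp (by fun_prop)).mul (by fun_prop))
    exact h3.abs.mul continuous_const

theorem good_sol (m : Fin 3 → ℝ) (M μ : ℝ) (hμ : 0 < μ) (hm : ∀ i, μ ≤ m i) (hM : M = ∑ i, m i)
    (a b c : Fin 3) (hab : a ≠ b) (hca : c ≠ a) (hcb : c ≠ b) (w ρ : ℝ) (hw : 0 < w) (hρ : 0 < ρ)
    (hC : 2000 * (M + M ^ 2 / μ) ≤ w ^ 2 * ρ) (z : Ph 3) (hz : z ∈ good m a b c w ρ (2 ^ 20 * M ^ 5 / μ ^ 2))
    (hzp : z ∈ phaseSpace m) :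
    ∃ (γ : ℝ → Ph 3) (η : ℝ), 0 < η ∧ γ 0 = z ∧
      (∀ t, -η < t → γ t ∈ phaseSpace m ∧ HasDerivAt γ ((γ t).2, acc m (γ t).1) t) ∧
      ∀ t, 0 ≤ t → (ρ / 2 + t * w) / 4 ≤ ‖(γ t).1 c - (γ t).1 a‖ ∧ (ρ / 2 + t * w) / 4 ≤ ‖(γ t).1 c - (γ t).1 b‖ := by
  obtain ⟨⟨⟨⟨⟨⟨⟨h1, h2⟩, h3⟩, h4⟩, h5⟩, h6⟩, h7⟩, h8⟩ := hz
  simp only [mem_ofPred_eq] at h1 h2 h3 h4 h5 h6 h7 h8
  obtain ⟨γ, η, hη, h0, hsol, hd⟩ := exists_sol m M μ hμ hm hM a b c hab hca hcb z h1 h2.le w ρ hw hρ hC h3.le h4.le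
    h5.le h6.le h7.le h8.le
  have hcom := com_const hη hsol (by rw [h0]; exact hzp)
  exact ⟨γ, η, hη, h0, fun t ht => ⟨hcom t ht, (hsol t ht).2⟩, fun t ht =>
    ⟨hd t ht c a ⟨hca, fun h => hca h.1, fun h => hcb h.1⟩, hd t ht c b ⟨hcb, fun h => hca h.1, fun h => hcb h.1⟩⟩⟩

end Pool.Agent.Q85.UB
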