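import Pool.Agent.Q85.UB.Near

/-! The motion of a third body which escapes: all estimates. -/

set_option autoImplicit false

namespace Pool.Agent.Q85.UB

open Pool.Agent.Y516.NW
open Pool.Agent.Q130.NX (FG FF line2 step fin3)

theorem curve2 {N : ℕ} (m : Fin N → ℝ) (M μ : ℝ) (hμ : 0 < μ) (hm : ∀ i, μ ≤ m i) (hM : ∑ i, m i ≤ M)
    (a b : Fin N) (hab : a ≠ b) (q v : ℝ → Cfg N) (c τ : ℝ → ℝ) (E : ℝ) (hE : E ≤ 0)
    (hmot : Mot m E q v c τ)
    (w δ : ℝ) (hw : 0 < w) (hδ : 0 < δ) (hC : 1000 * (M + M ^ 2 / μ) ≤ w ^ 2 * δ)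
    (hX : ∀ i j, P2 a b i j → δ ≤ ‖cm m a b (q 0) i - cm m a b (q 0) j‖)
    (hG : ∀ i j, P2 a b i j →
      FG w (cm m a b (q 0) i - cm m a b (q 0) j) (cm m a b (v 0) i - cm m a b (v 0) j))
    (hr : ‖q 0 a - q 0 b‖ ≤ δ / 16) :
    ∀ t, 0 ≤ t → ∀ i j, P2 a b i j →
      ‖(cm m a b (v t) i - cm m a b (v t) j) - (cm m a b (v 0) i - cm m a b (v 0) j)‖ ≤ w / 8 ∧
      ‖(cm m a b (q t) i - cm m a b (q t) j) - (cm m a b (q 0) i - cm m a b (q 0) j) -
          τ t • (cm m a b (v 0) i - cm m a b (v 0) j)‖ ≤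
        ‖(cm m a b (q 0) i - cm m a b (q 0) j) + τ t • (cm m a b (v 0) i - cm m a b (v 0) j)‖ / 2 ∧
      ‖q t a - q t b‖ ≤
        ‖(cm m a b (q 0) i - cm m a b (q 0) j) + τ t • (cm m a b (v 0) i - cm m a b (v 0) j)‖ / 8 := by
  set X : Fin N → Fin N → E3 := fun i j => cm m a b (q 0) i - cm m a b (q 0) j with hXdef
  set V : Fin N → Fin N → E3 := fun i j => cm m a b (v 0) i - cm m a b (v 0) j with hVdef
  have hne : ∀ i j, P2 a b i j → X i j ≠ 0 := fun i j h =>
    norm_pos_iff.mp (hδ.trans_le (hX i j h))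
  have hl := fun i j h => line2 (X i j) (V i j) w hw (hne i j h) (hG i j h)
  have hT : ∀ i j, ∃ Θ : ℝ → ℝ, P2 a b i j →
      (∀ s, HasDerivAt Θ (1 / FF w (X i j) (V i j) s ^ 2) s) ∧
      ∀ s, 0 ≤ s → Θ s - Θ 0 ≤ Real.pi / (w * ‖X i j‖) := by
    intro i j
    by_cases h : P2 a b i j
    · obtain ⟨Θ, h1, h2⟩ := (hl i j h).2.2.2
      exact ⟨Θ, fun _ => ⟨h1, h2⟩⟩
    · exact ⟨fun _ => 0, fun h' => absurd h' h⟩
  choose Θ hΘ using hT
  have hstep := fun (T : ℝ) (hT : 0 ≤ T) => step Pool.Agent.Y421.NW.accl Pool.Agent.Y421.NW.ener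
    m M μ hμ hm hM a b hab q v c τ E hE
    hmot w δ hw hδ hC X V (fun _ _ => rfl) (fun _ _ => rfl) hX (FF w)
    (fun i j h => (hl i j h).1) (fun i j h => (hl i j h).2.1) (fun i j h => (hl i j h).2.2.1) Θ
    (fun i j h => (hΘ i j h).1) (fun i j h => (hΘ i j h).2) T hT
  -- continuity
  have hτc : Continuous τ := continuous_iff_continuousAt.mpr fun t => (hmot.τd t).continuousAt
  have hqc : ∀ i, Continuous fun t => q t i := fun i =>
    continuous_iff_continuousAt.mpr fun t => (hmot.qd t i).continuousAt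
  have hcm : ∀ i, Continuous fun t => cm m a b (q t) i := fun i =>
    continuous_iff_continuousAt.mpr fun t =>
      (cm_hasDerivAt m a b q (fun i => c t • v t i) t (hmot.qd t) i).continuousAt
  have hDc : ∀ i j, Continuous fun t => ‖X i j + τ t • V i j‖ := fun i j =>
    (continuous_const.add (hτc.smul continuous_const)).norm
  let ι := {p : Fin N × Fin N // P2 a b p.1 p.2} × Bool
  let g : ι → ℝ → ℝ := fun α t =>
    if α.2 then ‖X α.1.1.1 α.1.1.2 + τ t • V α.1.1.1 α.1.1.2‖ / 2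
      - ‖(cm m a b (q t) α.1.1.1 - cm m a b (q t) α.1.1.2) - X α.1.1.1 α.1.1.2
        - τ t • V α.1.1.1 α.1.1.2‖
    else ‖X α.1.1.1 α.1.1.2 + τ t • V α.1.1.1 α.1.1.2‖ / 8 - ‖q t a - q t b‖
  have hg := Pool.Agent.Y275.NW.boot ι g
    (by
      rintro ⟨⟨⟨i, j⟩, hP⟩, _ | _⟩
      · exact ((hDc i j).div_const 8).sub ((hqc a).sub (hqc b)).norm
      · exact ((hDc i j).div_const 2).sub
          ((((hcm i).sub (hcm j)).sub continuous_const).sub (hτc.smul continuous_const)).norm)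
    (by
      rintro ⟨⟨⟨i, j⟩, hP⟩, _ | _⟩
      · have h1 := hX i j hP
        simp only [g, hmot.τ0, zero_smul, add_zero, Bool.false_eq_true, if_false]
        have : ‖X i j‖ = ‖cm m a b (q 0) i - cm m a b (q 0) j‖ := rfl
        rw [← this] at h1
        linarith
      · have h1 := hX i j hP
        have h2 : cm m a b (q 0) i - cm m a b (q 0) j - X i j = 0 := by simp [X]
        simp only [g, hmot.τ0, zero_smul, add_zero, if_true, sub_zero, h2, norm_zero]
        have : ‖X i j‖ = ‖cm m a b (q 0) i - cm m a b (q 0) j‖ := rfl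
        rw [← this] at h1
        linarith)
    (by
      intro T hT0 hall
      obtain ⟨_, h2, h3⟩ := hstep T hT0
        (fun t h0 h1 i j hP => by
          have := hall t h0 h1 (⟨(i, j), hP⟩, true)
          simp only [g, if_true] at this
          linarith)
        (fun t h0 h1 i j hP => by
          have := hall t h0 h1 (⟨(i, j), hP⟩, false)
          simp only [g, Bool.false_eq_true, if_false] at this
          linarith)
      rintro ⟨⟨⟨i, j⟩, hP⟩, _ | _⟩
      · have := h3 i j hP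
        simp only [g, Bool.false_eq_true, if_false]
        linarith
      · have := h2 i j hP
        simp only [g, if_true]
        linarith)
  intro t ht i j hP
  have h1 := hstep t ht
    (fun s h0 h1 i j hP => by
      have := hg s h0 (⟨(i, j), hP⟩, true)
      simp only [g, if_true] at this
      linarith)
    (fun s h0 h1 i j hP => by
      have := hg s h0 (⟨(i, j), hP⟩, false)
      simp only [g, Bool.false_eq_true, if_false] at this
      linarith)
  exact ⟨h1.1 t ht le_rfl i j hP, (h1.2.1 i j hP).le, (h1.2.2 i j hP).le⟩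

/-- three bodies: all estimates -/
theorem esc2 (m : Fin 3 → ℝ) (M μ : ℝ) (hμ : 0 < μ) (hm : ∀ i, μ ≤ m i) (hM : ∑ i, m i ≤ M)
    (a b c : Fin 3) (hab : a ≠ b) (hca : c ≠ a) (hcb : c ≠ b)
    (q v : ℝ → Cfg 3) (s τ : ℝ → ℝ) (E : ℝ) (hE : E ≤ 0) (hmot : Mot m E q v s τ)
    (w ρ : ℝ) (hw : 0 < w) (hρ : 0 < ρ) (hC : 2000 * (M + M ^ 2 / μ) ≤ w ^ 2 * ρ)
    (hqa : ρ ≤ ‖q 0 c - q 0 a‖) (hqb : ρ ≤ ‖q 0 c - q 0 b‖) (hr : ‖q 0 a - q 0 b‖ ≤ ρ / 128)
    (hin : 0 ≤ inner ℝ (rel m (q 0) a b c) (rel m (v 0) a b c)) (hwV : w ≤ ‖rel m (v 0) a b c‖) :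
    ρ / 2 ≤ ‖rel m (q 0) a b c‖ ∧ ∀ t, 0 ≤ t → ‖rel m (v t) a b c - rel m (v 0) a b c‖ ≤ w / 8 ∧
      ‖rel m (q t) a b c - rel m (q 0) a b c - τ t • rel m (v 0) a b c‖ ≤
        ‖rel m (q 0) a b c + τ t • rel m (v 0) a b c‖ / 2 ∧
      ‖q t a - q t b‖ ≤ ‖rel m (q 0) a b c + τ t • rel m (v 0) a b c‖ / 8 ∧
      (∀ i j, P2 a b i j → ‖rel m (q 0) a b c + τ t • rel m (v 0) a b c‖ * (3 / 8) ≤ ‖q t i - q t j‖) := by
  have hmpos : ∀ i, 0 < m i := fun i => hμ.trans_le (hm i)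
  have hpair : ∀ i j : Fin 3, P2 a b i j → ρ ≤ ‖q 0 i - q 0 j‖ := by
    intro i j hP
    have hi := fin3 a b c hab hca hcb i
    have hj := fin3 a b c hab hca hcb j
    obtain ⟨h1, h2, h3⟩ := hP
    rcases hi with rfl | rfl | rfl <;> rcases hj with rfl | rfl | rfl
    · exact absurd rfl h1
    · exact absurd ⟨rfl, rfl⟩ h2
    · rw [norm_sub_rev]; exact hqa
    · exact absurd ⟨rfl, rfl⟩ h3
    · exact absurd rfl h1
    · rw [norm_sub_rev]; exact hqb
    · exact hqa
    · exact hqb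
    · exact absurd rfl h1
  have hXge : ∀ i j, P2 a b i j → ρ / 2 ≤ ‖cm m a b (q 0) i - cm m a b (q 0) j‖ := by
    intro i j hP
    have e3 := Pool.Agent.Y516.NW.near m hmpos a b (q 0) i
    have e4 := Pool.Agent.Y516.NW.near m hmpos a b (q 0) j
    have e5 := hpair i j hP
    have e6 : ‖q 0 i - q 0 j‖ ≤ ‖q 0 i - cm m a b (q 0) i‖ + ‖cm m a b (q 0) i - cm m a b (q 0) j‖
        + ‖q 0 j - cm m a b (q 0) j‖ := by
      have : q 0 i - q 0 j = (q 0 i - cm m a b (q 0) i) + (cm m a b (q 0) i - cm m a b (q 0) j)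
          + -(q 0 j - cm m a b (q 0) j) := by abel
      calc ‖q 0 i - q 0 j‖ = ‖(q 0 i - cm m a b (q 0) i) + (cm m a b (q 0) i - cm m a b (q 0) j)
          + -(q 0 j - cm m a b (q 0) j)‖ := by rw [← this]
        _ ≤ ‖(q 0 i - cm m a b (q 0) i) + (cm m a b (q 0) i - cm m a b (q 0) j)‖
          + ‖-(q 0 j - cm m a b (q 0) j)‖ := norm_add_le _ _
        _ ≤ _ := by rw [norm_neg]; gcongr; exact norm_add_le _ _
    linarith
  have hcmc : ∀ u : Cfg 3, cm m a b u c = u c := by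
    intro u; unfold cm; rw [if_neg (by tauto)]
  have hcma : ∀ u : Cfg 3, cm m a b u a = (m a + m b)⁻¹ • (m a • u a + m b • u b) := by
    intro u; unfold cm; rw [if_pos (Or.inl rfl)]
  have hcmb : ∀ u : Cfg 3, cm m a b u b = (m a + m b)⁻¹ • (m a • u a + m b • u b) := by
    intro u; unfold cm; rw [if_pos (Or.inr rfl)]
  have key1 : ∀ u : Cfg 3, u c - (m a + m b)⁻¹ • (m a • u a + m b • u b) = rel m u a b c := fun u => rfl
  have key2 : ∀ u : Cfg 3, (m a + m b)⁻¹ • (m a • u a + m b • u b) - u c = -rel m u a b c := fun u => by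
    unfold rel; abel
  have hG : ∀ i j, P2 a b i j →
      FG w (cm m a b (q 0) i - cm m a b (q 0) j) (cm m a b (v 0) i - cm m a b (v 0) j) := by
    intro i j hP
    right
    have hi := fin3 a b c hab hca hcb i
    have hj := fin3 a b c hab hca hcb j
    obtain ⟨h1, h2, h3⟩ := hP
    rcases hi with rfl | rfl | rfl <;> rcases hj with rfl | rfl | rfl
    · exact absurd rfl h1
    · exact absurd ⟨rfl, rfl⟩ h2
    · rw [hcmc, hcmc, hcma, hcma, key2, key2, inner_neg_neg, norm_neg]; exact ⟨hin, hwV⟩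
    · exact absurd ⟨rfl, rfl⟩ h3
    · exact absurd rfl h1
    · rw [hcmc, hcmc, hcmb, hcmb, key2, key2, inner_neg_neg, norm_neg]; exact ⟨hin, hwV⟩
    · rw [hcmc, hcmc, hcma, hcma, key1, key1]; exact ⟨hin, hwV⟩
    · rw [hcmc, hcmc, hcmb, hcmb, key1, key1]; exact ⟨hin, hwV⟩
    · exact absurd rfl h1
  have hP₀ : P2 a b c a := ⟨hca, fun h => hca h.1, fun h => hcb h.1⟩
  have hX0 := hXge c a hP₀
  rw [hcmc, hcma, key1] at hX0
  refine ⟨hX0, fun t ht => ?_⟩
  have h := curve2 m M μ hμ hm hM a b hab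
    q v s τ E hE hmot w (ρ / 2) hw (by positivity) (by linarith) hXge hG (by linarith) t ht c a hP₀
  simp only [hcmc, hcma, key1] at h
  obtain ⟨h1, h2, h3⟩ := h
  refine ⟨h1, h2, h3, ?_⟩
  set D := ‖rel m (q 0) a b c + τ t • rel m (v 0) a b c‖ with hD
  have hrel : D / 2 ≤ ‖rel m (q t) a b c‖ := by
    have e1 : D ≤ ‖rel m (q t) a b c - rel m (q 0) a b c - τ t • rel m (v 0) a b c‖ + ‖rel m (q t) a b c‖ := by
      rw [hD]
      have : rel m (q 0) a b c + τ t • rel m (v 0) a b c =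
          -(rel m (q t) a b c - rel m (q 0) a b c - τ t • rel m (v 0) a b c) + rel m (q t) a b c := by abel
      calc ‖rel m (q 0) a b c + τ t • rel m (v 0) a b c‖ =
          ‖-(rel m (q t) a b c - rel m (q 0) a b c - τ t • rel m (v 0) a b c) + rel m (q t) a b c‖ := by rw [← this]
        _ ≤ _ := by
          refine (norm_add_le _ _).trans ?_
          rw [norm_neg]
    linarith
  have hnear := fun i => Pool.Agent.Y516.NW.near m hmpos a b (q t) i
  have hca' : D * (3 / 8) ≤ ‖q t c - q t a‖ := by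
    have e1 := hnear a
    rw [hcma] at e1
    have e2 : ‖rel m (q t) a b c‖ ≤ ‖q t c - q t a‖ + ‖q t a - (m a + m b)⁻¹ • (m a • q t a + m b • q t b)‖ := by
      have : rel m (q t) a b c = (q t c - q t a) + (q t a - (m a + m b)⁻¹ • (m a • q t a + m b • q t b)) := by
        unfold rel; abel
      rw [this]
      exact norm_add_le _ _
    linarith
  have hcb' : D * (3 / 8) ≤ ‖q t c - q t b‖ := by
    have e1 := hnear b
    rw [hcmb] at e1
    have e2 : ‖rel m (q t) a b c‖ ≤ ‖q t c - q t b‖ + ‖q t b - (m a + m b)⁻¹ • (m a • q t a + m b • q t b)‖ := by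
      have : rel m (q t) a b c = (q t c - q t b) + (q t b - (m a + m b)⁻¹ • (m a • q t a + m b • q t b)) := by
        unfold rel; abel
      rw [this]
      exact norm_add_le _ _
    linarith
  intro i j hP
  have hi := fin3 a b c hab hca hcb i
  have hj := fin3 a b c hab hca hcb j
  obtain ⟨g1, g2, g3⟩ := hP
  rcases hi with rfl | rfl | rfl <;> rcases hj with rfl | rfl | rfl
  · exact absurd rfl g1
  · exact absurd ⟨rfl, rfl⟩ g2
  · rw [norm_sub_rev]; exact hca'
  · exact absurd ⟨rfl, rfl⟩ g3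
  · exact absurd rfl g1
  · rw [norm_sub_rev]; exact hcb'
  · exact hca'
  · exact hcb'
  · exact absurd rfl g1

end Pool.Agent.Q85.UB
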