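import Pool.Agent.W821.TB.Fam
import Pool.Agent.Q130.NX.Three

/-! Planar solutions as motions in space. -/

set_option autoImplicit false

namespace Pool.Agent.Q85.UB

open Pool.Agent.W821.TB
open Pool.Agent.Y516.NW (E3 Cfg Mot cm P2)

/-- the plane in space -/
noncomputable def io : ℂ →ₗ[ℝ] E3 where
  toFun z := !₂[z.re, z.im, 0]
  map_add' z w := by
    ext i
    fin_cases i <;> simp
  map_smul' c z := by
    ext i
    fin_cases i <;> simp

theorem io_norm (z : ℂ) : ‖io z‖ = ‖z‖ := by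
  have h : ‖io z‖ ^ 2 = ‖z‖ ^ 2 := by
    rw [EuclideanSpace.norm_sq_eq, Fin.sum_univ_three, ← Complex.normSq_eq_norm_sq, Complex.normSq_apply]
    simp [io, pow_two]
  have h1 := norm_nonneg (io z)
  have h2 := norm_nonneg z
  nlinarith [sq_nonneg (‖io z‖ - ‖z‖), sq_nonneg (‖io z‖ + ‖z‖), abs_eq_abs.mpr (Or.inl h),
    (sq_eq_sq₀ h1 h2).mp h]

theorem io_sub (z w : ℂ) : ‖io z - io w‖ = ‖z - w‖ := by rw [← map_sub, io_norm]

theorem io_deriv {f : ℝ → ℂ} {f' : ℂ} {t : ℝ} (h : HasDerivAt f f' t) :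
    HasDerivAt (fun s => io (f s)) (io f') t := by
  have h1 := (LinearMap.toContinuousLinearMap io).hasFDerivAt (x := f t)
  exact h1.comp_hasDerivAt t h

theorem io_acc (m : Fin 3 → ℝ) (q : Fin 3 → ℂ) (a : Fin 3) :
    Pool.Agent.Y516.NW.acc m (fun i => io (q i)) a = io (acc m q a) := by
  unfold Pool.Agent.Y516.NW.acc acc
  rw [map_sum, ← Finset.sum_erase (s := Finset.univ) (a := a)]
  · refine Finset.sum_congr rfl fun b _ => ?_
    rw [io_sub, ← Complex.real_smul, map_smul, map_sub]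
  · simp

theorem io_en (m : Fin 3 → ℝ) (z : Ph 3) :
    ∑ i, m i * ‖io (z.2 i)‖ ^ 2 / 2 - ∑ i, ∑ j, m i * m j / ‖io (z.1 i) - io (z.1 j)‖ / 2 = energy m z := by
  unfold energy upot
  congr 1
  · rw [Finset.sum_div]
    exact Finset.sum_congr rfl fun i _ => by rw [io_norm]
  · rw [Finset.sum_div]
    refine Finset.sum_congr rfl fun i _ => ?_
    rw [Finset.sum_div, ← Finset.sum_erase (s := Finset.univ) (a := i)]
    · exact Finset.sum_congr rfl fun j _ => by rw [io_sub, norm_sub_rev]
    · simp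

/-- a planar solution, or its time reversal, as a motion in space -/
theorem mot {m : Fin 3 → ℝ} {x : ℝ → Ph 3} (hx : IsSol m Set.univ x) (σ : ℝ) (hσ : σ * σ = 1) :
    Mot m (energy m (x 0)) (fun t i => io ((x (σ * t)).1 i)) (fun t i => io ((σ : ℂ) * (x (σ * t)).2 i))
      (fun _ => 1) (fun t => t) where
  τ0 := rfl
  τd t := hasDerivAt_id t
  cpos _ := one_pos
  qd t i := by
    have h1 := hasDerivAt_pos hx (σ * t) i
    have h2 : HasDerivAt (fun s : ℝ => σ * s) σ t := by
      simpa using (hasDerivAt_id t).const_mul σ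
    have h3 := h1.scomp t h2
    have h4 := io_deriv h3
    rw [Complex.real_smul] at h4
    simpa using h4
  vd t i := by
    have h1 := hasDerivAt_vel hx (σ * t) i
    have h2 : HasDerivAt (fun s : ℝ => σ * s) σ t := by
      simpa using (hasDerivAt_id t).const_mul σ
    have h3 := (h1.scomp t h2).const_mul (σ : ℂ)
    have h4 := io_deriv h3
    have h5 : (σ : ℂ) * (σ • acc m (x (σ * t)).1 i) = acc m (x (σ * t)).1 i := by
      rw [Complex.real_smul, ← mul_assoc, ← Complex.ofReal_mul, hσ, Complex.ofReal_one, one_mul]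
    rw [h5, ← io_acc] at h4
    rw [one_smul]
    exact h4
  ne t i j hij h := by
    have h1 := (hx.mem (σ * t)).1 i j hij
    apply h1
    have h2 := io_sub ((x (σ * t)).1 i) ((x (σ * t)).1 j)
    rw [h, sub_self, norm_zero] at h2
    exact sub_eq_zero.mp (norm_eq_zero.mp h2.symm)
  en t := by
    have h1 := io_en m ((x (σ * t)).1, fun i => (σ : ℂ) * (x (σ * t)).2 i)
    simp only at h1
    rw [h1]
    have h2 : ‖(σ : ℂ)‖ = 1 := by
      have : |σ| * |σ| = 1 := by rw [← abs_mul, hσ, abs_one]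
      rw [Complex.norm_real, Real.norm_eq_abs]
      nlinarith [abs_nonneg σ]
    have h3 : energy m ((x (σ * t)).1, fun i => (σ : ℂ) * (x (σ * t)).2 i) = energy m (x (σ * t)) := by
      unfold energy
      simp only [norm_mul, h2, one_mul]
    rw [h3]
    exact energy_const hx _ _

end Pool.Agent.Q85.UB
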