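import Pool.Agent.Q85.UB.Emb

/-! Escape of the third body, and bounded solutions. -/

set_option autoImplicit false

namespace Pool.Agent.Q85.UB

open Pool.Agent.W821.TB
open Pool.Agent.Y516.NW (E3 Cfg Mot cm P2)
open Pool.Agent.Q130.NX (FG fin3 curve relvel)

/-- relative velocity of `c` and the centre of mass of `a`, `b` -/
noncomputable def rel (m : Fin 3 → ℝ) (u : Cfg 3) (a b c : Fin 3) : E3 :=
  u c - (m a + m b)⁻¹ • (m a • u a + m b • u b)

/-- the constant -/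
noncomputable def CC (M μ : ℝ) : ℝ := 16000 * (M + M ^ 2 / μ) + 10000 * M ^ 2 / μ

theorem esc (m : Fin 3 → ℝ) (M μ : ℝ) (hμ : 0 < μ) (hm : ∀ i, μ ≤ m i) (hM : ∑ i, m i ≤ M)
    (a b c : Fin 3) (hab : a ≠ b) (hca : c ≠ a) (hcb : c ≠ b)
    (q v : ℝ → Cfg 3) (s τ : ℝ → ℝ) (E : ℝ) (hE : E ≤ 0) (hmot : Mot m E q v s τ)
    (w ρ : ℝ) (hw : 0 < w) (hρ : 0 < ρ) (hC : 2000 * (M + M ^ 2 / μ) ≤ w ^ 2 * ρ)
    (hqa : ρ ≤ ‖q 0 c - q 0 a‖) (hqb : ρ ≤ ‖q 0 c - q 0 b‖) (hr : ‖q 0 a - q 0 b‖ ≤ ρ / 128)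
    (hin : 0 ≤ inner ℝ (rel m (q 0) a b c) (rel m (v 0) a b c)) (hwV : w ≤ ‖rel m (v 0) a b c‖) :
    ∀ t, 0 ≤ t → ‖rel m (v t) a b c - rel m (v 0) a b c‖ ≤ w / 8 := by
  have hmpos : ∀ i, 0 < m i := fun i => hμ.trans_le (hm i)
  have hpair : ∀ i j : Fin 3, P2 a b i j → ρ ≤ ‖q 0 i - q 0 j‖ := by
    intro i j hP
    have hi := fin3 a b c hab hca hcb i
    have hj := fin3 a b c hab hca hcb j
    obtain ⟨h1, h2, h3⟩ := hP
    rcases hi with rfl | rfl | rfl <;> rcases hj with rfl | rfl | rfl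
    · exact absurd rfl h1
    · exact absurd ⟨rfl, rfl⟩ h2
    · rw [norm_sub_rev]; exact hqa
    · exact absurd ⟨rfl, rfl⟩ h3
    · exact absurd rfl h1
    · rw [norm_sub_rev]; exact hqb
    · exact hqa
    · exact hqb
    · exact absurd rfl h1
  have hXge : ∀ i j, P2 a b i j → ρ / 2 ≤ ‖cm m a b (q 0) i - cm m a b (q 0) j‖ := by
    intro i j hP
    have e3 := Pool.Agent.Y516.NW.near m hmpos a b (q 0) i
    have e4 := Pool.Agent.Y516.NW.near m hmpos a b (q 0) j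
    have e5 := hpair i j hP
    have e6 : ‖q 0 i - q 0 j‖ ≤ ‖q 0 i - cm m a b (q 0) i‖ + ‖cm m a b (q 0) i - cm m a b (q 0) j‖
        + ‖q 0 j - cm m a b (q 0) j‖ := by
      have : q 0 i - q 0 j = (q 0 i - cm m a b (q 0) i) + (cm m a b (q 0) i - cm m a b (q 0) j)
          + -(q 0 j - cm m a b (q 0) j) := by abel
      calc ‖q 0 i - q 0 j‖ = ‖(q 0 i - cm m a b (q 0) i) + (cm m a b (q 0) i - cm m a b (q 0) j)
          + -(q 0 j - cm m a b (q 0) j)‖ := by rw [← this]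
        _ ≤ ‖(q 0 i - cm m a b (q 0) i) + (cm m a b (q 0) i - cm m a b (q 0) j)‖
          + ‖-(q 0 j - cm m a b (q 0) j)‖ := norm_add_le _ _
        _ ≤ _ := by rw [norm_neg]; gcongr; exact norm_add_le _ _
    linarith
  have hcmc : ∀ u : Cfg 3, cm m a b u c = u c := by
    intro u; unfold cm; rw [if_neg (by tauto)]
  have hcma : ∀ u : Cfg 3, cm m a b u a = (m a + m b)⁻¹ • (m a • u a + m b • u b) := by
    intro u; unfold cm; rw [if_pos (Or.inl rfl)]
  have hcmb : ∀ u : Cfg 3, cm m a b u b = (m a + m b)⁻¹ • (m a • u a + m b • u b) := by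
    intro u; unfold cm; rw [if_pos (Or.inr rfl)]
  have hG : ∀ i j, P2 a b i j →
      FG w (cm m a b (q 0) i - cm m a b (q 0) j) (cm m a b (v 0) i - cm m a b (v 0) j) := by
    intro i j hP
    right
    have hi := fin3 a b c hab hca hcb i
    have hj := fin3 a b c hab hca hcb j
    obtain ⟨h1, h2, h3⟩ := hP
    have key1 : ∀ u : Cfg 3, u c - (m a + m b)⁻¹ • (m a • u a + m b • u b) = rel m u a b c := fun u => rfl
    have key2 : ∀ u : Cfg 3, (m a + m b)⁻¹ • (m a • u a + m b • u b) - u c = -rel m u a b c := fun u => by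
      unfold rel; abel
    rcases hi with rfl | rfl | rfl <;> rcases hj with rfl | rfl | rfl
    · exact absurd rfl h1
    · exact absurd ⟨rfl, rfl⟩ h2
    · rw [hcmc, hcmc, hcma, hcma, key2, key2, inner_neg_neg, norm_neg]; exact ⟨hin, hwV⟩
    · exact absurd ⟨rfl, rfl⟩ h3
    · exact absurd rfl h1
    · rw [hcmc, hcmc, hcmb, hcmb, key2, key2, inner_neg_neg, norm_neg]; exact ⟨hin, hwV⟩
    · rw [hcmc, hcmc, hcma, hcma, key1, key1]; exact ⟨hin, hwV⟩
    · rw [hcmc, hcmc, hcmb, hcmb, key1, key1]; exact ⟨hin, hwV⟩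
    · exact absurd rfl h1
  have hP₀ : P2 a b c a := ⟨hca, fun h => hca h.1, fun h => hcb h.1⟩
  intro t ht
  have h := curve Pool.Agent.Y275.NW.boot Pool.Agent.Y421.NW.accl Pool.Agent.Y421.NW.ener m M μ hμ hm hM a b hab
    q v s τ E hE hmot w (ρ / 2) hw (by positivity) (by linarith) hXge hG (by linarith) t ht c a hP₀
  rw [hcmc, hcmc, hcma, hcma] at h
  exact h

end Pool.Agent.Q85.UB
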