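import Pool.Agent.GR.Flow
import Pool.Agent.W821.TB.Fam

/-! The regularized planar three-body problem: global solutions. -/

set_option autoImplicit false

namespace Pool.Agent.Q85.UB

open Pool.Agent.W821.TB
open scoped NNReal

/-- the regularized kernel -/
noncomputable def ker (ε : ℝ) (x : ℂ) : ℂ := ((1 / max ε ‖x‖ ^ 3 : ℝ) : ℂ) * x

theorem ker_norm {ε : ℝ} (hε : 0 < ε) (x : ℂ) : ‖ker ε x‖ ≤ 1 / ε ^ 2 := by
  have h1 : ε ≤ max ε ‖x‖ := le_max_left _ _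
  have h2 : ‖x‖ ≤ max ε ‖x‖ := le_max_right _ _
  set g := max ε ‖x‖ with hg
  have hg0 : 0 < g := hε.trans_le h1
  rw [ker, ← hg, norm_mul, Complex.norm_real, Real.norm_of_nonneg (by positivity)]
  calc 1 / g ^ 3 * ‖x‖ ≤ 1 / g ^ 3 * g := by gcongr
    _ = 1 / g ^ 2 := by field_simp
    _ ≤ 1 / ε ^ 2 := by gcongr

theorem ker_lip {ε : ℝ} (hε : 0 < ε) (x y : ℂ) : ‖ker ε x - ker ε y‖ ≤ 4 / ε ^ 3 * ‖x - y‖ := by
  have ha1 : ε ≤ max ε ‖x‖ := le_max_left _ _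
  have hb1 : ε ≤ max ε ‖y‖ := le_max_left _ _
  have hb2 : ‖y‖ ≤ max ε ‖y‖ := le_max_right _ _
  have hab : |max ε ‖x‖ - max ε ‖y‖| ≤ ‖x - y‖ := by
    rw [max_comm ε, max_comm ε]
    exact (abs_max_sub_max_le_abs ‖x‖ ‖y‖ ε).trans (abs_norm_sub_norm_le x y)
  set α := max ε ‖x‖ with hα
  set β := max ε ‖y‖ with hβ
  have hα0 : 0 < α := hε.trans_le ha1
  have hβ0 : 0 < β := hε.trans_le hb1
  have e1 : ker ε x - ker ε y = ((1 / α ^ 3 : ℝ) : ℂ) * (x - y) + ((1 / α ^ 3 - 1 / β ^ 3 : ℝ) : ℂ) * y := by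
    rw [ker, ker, ← hα, ← hβ]
    push_cast
    ring
  have e2 : |1 / α ^ 3 - 1 / β ^ 3| * β ≤ 3 / ε ^ 3 * |α - β| := by
    have e3 : 1 / α ^ 3 - 1 / β ^ 3 = -(α - β) * (1 / (α * β ^ 3) + 1 / (α ^ 2 * β ^ 2) + 1 / (α ^ 3 * β)) := by
      field_simp
      ring
    have e4 : 0 ≤ 1 / (α * β ^ 3) + 1 / (α ^ 2 * β ^ 2) + 1 / (α ^ 3 * β) := by positivity
    rw [e3, abs_mul, abs_neg, abs_of_nonneg e4]
    have e5 : (1 / (α * β ^ 3) + 1 / (α ^ 2 * β ^ 2) + 1 / (α ^ 3 * β)) * β =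
        1 / (α * β ^ 2) + 1 / (α ^ 2 * β) + 1 / α ^ 3 := by
      field_simp
    have e6 : 1 / (α * β ^ 2) + 1 / (α ^ 2 * β) + 1 / α ^ 3 ≤ 1 / (ε * ε ^ 2) + 1 / (ε ^ 2 * ε) + 1 / ε ^ 3 := by
      gcongr
    have e7 : 1 / (ε * ε ^ 2) + 1 / (ε ^ 2 * ε) + 1 / ε ^ 3 = 3 / ε ^ 3 := by field_simp; ring
    calc |α - β| * (1 / (α * β ^ 3) + 1 / (α ^ 2 * β ^ 2) + 1 / (α ^ 3 * β)) * β
        = |α - β| * (1 / (α * β ^ 2) + 1 / (α ^ 2 * β) + 1 / α ^ 3) := by rw [mul_assoc, e5]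
      _ ≤ |α - β| * (3 / ε ^ 3) := by rw [← e7]; gcongr
      _ = _ := by ring
  rw [e1]
  refine (norm_add_le _ _).trans ?_
  rw [norm_mul, norm_mul, Complex.norm_real, Complex.norm_real, Real.norm_eq_abs, Real.norm_eq_abs,
    abs_of_pos (by positivity : 0 < 1 / α ^ 3)]
  have e8 : 1 / α ^ 3 * ‖x - y‖ ≤ 1 / ε ^ 3 * ‖x - y‖ := by gcongr
  have e9 : |1 / α ^ 3 - 1 / β ^ 3| * ‖y‖ ≤ 3 / ε ^ 3 * ‖x - y‖ := by
    calc |1 / α ^ 3 - 1 / β ^ 3| * ‖y‖ ≤ |1 / α ^ 3 - 1 / β ^ 3| * β := by gcongr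
      _ ≤ 3 / ε ^ 3 * |α - β| := e2
      _ ≤ _ := by gcongr
  have e10 : 4 / ε ^ 3 * ‖x - y‖ = 1 / ε ^ 3 * ‖x - y‖ + 3 / ε ^ 3 * ‖x - y‖ := by ring
  linarith

theorem ker_eq {ε : ℝ} {x : ℂ} (h : ε ≤ ‖x‖) : ker ε x = ((1 / ‖x‖ ^ 3 : ℝ) : ℂ) * x := by
  rw [ker, max_eq_right h]

/-- the cut off of the velocity -/
noncomputable def cut (B : ℝ) (x : ℂ) : ℂ := ((B / max B ‖x‖ : ℝ) : ℂ) * x

theorem cut_norm {B : ℝ} (hB : 0 < B) (x : ℂ) : ‖cut B x‖ ≤ B := by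
  have h1 : B ≤ max B ‖x‖ := le_max_left _ _
  have h2 : ‖x‖ ≤ max B ‖x‖ := le_max_right _ _
  set g := max B ‖x‖ with hg
  have hg0 : 0 < g := hB.trans_le h1
  rw [cut, ← hg, norm_mul, Complex.norm_real, Real.norm_of_nonneg (by positivity)]
  calc B / g * ‖x‖ ≤ B / g * g := by gcongr
    _ = B := by field_simp

theorem cut_lip {B : ℝ} (hB : 0 < B) (x y : ℂ) : ‖cut B x - cut B y‖ ≤ 2 * ‖x - y‖ := by
  have ha1 : B ≤ max B ‖x‖ := le_max_left _ _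
  have hb1 : B ≤ max B ‖y‖ := le_max_left _ _
  have hb2 : ‖y‖ ≤ max B ‖y‖ := le_max_right _ _
  have hab : |max B ‖x‖ - max B ‖y‖| ≤ ‖x - y‖ := by
    rw [max_comm B, max_comm B]
    exact (abs_max_sub_max_le_abs ‖x‖ ‖y‖ B).trans (abs_norm_sub_norm_le x y)
  set α := max B ‖x‖ with hα
  set β := max B ‖y‖ with hβ
  have hα0 : 0 < α := hB.trans_le ha1
  have hβ0 : 0 < β := hB.trans_le hb1
  have e1 : cut B x - cut B y = ((B / α : ℝ) : ℂ) * (x - y) + ((B / α - B / β : ℝ) : ℂ) * y := by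
    rw [cut, cut, ← hα, ← hβ]
    push_cast
    ring
  have e2 : |B / α - B / β| * β ≤ |α - β| := by
    have e3 : (B / α - B / β) * β = -(B / α) * (α - β) := by field_simp; ring
    have e4 : |B / α - B / β| * β = |(B / α - B / β) * β| := by rw [abs_mul, abs_of_pos hβ0]
    rw [e4, e3, abs_mul, abs_neg, abs_of_pos (by positivity : 0 < B / α)]
    exact mul_le_of_le_one_left (abs_nonneg _) ((div_le_one hα0).mpr ha1)
  rw [e1]
  refine (norm_add_le _ _).trans ?_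
  rw [norm_mul, norm_mul, Complex.norm_real, Complex.norm_real, Real.norm_eq_abs, Real.norm_eq_abs,
    abs_of_pos (by positivity : 0 < B / α)]
  have e8 : B / α * ‖x - y‖ ≤ ‖x - y‖ := mul_le_of_le_one_left (norm_nonneg _) ((div_le_one hα0).mpr ha1)
  have e9 : |B / α - B / β| * ‖y‖ ≤ ‖x - y‖ := by
    calc |B / α - B / β| * ‖y‖ ≤ |B / α - B / β| * β := by gcongr
      _ ≤ |α - β| := e2
      _ ≤ _ := hab
  linarith

theorem cut_eq {B : ℝ} (hB : 0 < B) {x : ℂ} (h : ‖x‖ ≤ B) : cut B x = x := by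
  rw [cut, max_eq_left h, div_self hB.ne', Complex.ofReal_one, one_mul]

/-- the regularized acceleration -/
noncomputable def acce (ε : ℝ) (m : Fin 3 → ℝ) (q : Fin 3 → ℂ) (a : Fin 3) : ℂ :=
  ∑ b ∈ Finset.univ.erase a, (m b : ℂ) * ker ε (q b - q a)

theorem acce_eq {ε : ℝ} {m : Fin 3 → ℝ} {q : Fin 3 → ℂ} (h : ∀ i j, i ≠ j → ε ≤ ‖q i - q j‖) (a : Fin 3) :
    acce ε m q a = acc m q a := by
  unfold acce acc
  refine Finset.sum_congr rfl fun b hb => ?_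
  rw [ker_eq (h b a (Finset.ne_of_mem_erase hb))]
  push_cast
  ring

/-- the regularized vector field -/
noncomputable def fld (ε B : ℝ) (m : Fin 3 → ℝ) (z : Ph 3) : Ph 3 := (fun i => cut B (z.2 i), acce ε m z.1)

theorem exists_glob {ε B : ℝ} (hε : 0 < ε) (hB : 0 < B) (m : Fin 3 → ℝ) (hm : ∀ i, 0 < m i) (z : Ph 3) :
    ∃ γ : ℝ → Ph 3, γ 0 = z ∧ ∀ t, HasDerivAt γ (fld ε B m (γ t)) t := by
  set M : ℝ := ∑ i, m i with hM
  have hM0 : 0 ≤ M := Finset.sum_nonneg fun i _ => (hm i).le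
  have hsub : ∀ a, ∑ b ∈ Finset.univ.erase a, m b ≤ M := fun a =>
    Finset.sum_le_sum_of_subset_of_nonneg (Finset.erase_subset _ _) fun i _ _ => (hm i).le
  have hlip : LipschitzWith (⟨2 + 8 * M / ε ^ 3, by positivity⟩ : ℝ≥0) (fld ε B m) := by
    refine LipschitzWith.of_dist_le_mul fun z w => ?_
    rw [dist_eq_norm, dist_eq_norm]
    change _ ≤ (2 + 8 * M / ε ^ 3) * ‖z - w‖
    have hz1 : ∀ i, ‖z.1 i - w.1 i‖ ≤ ‖z - w‖ := fun i =>
      (norm_le_pi_norm (z.1 - w.1) i).trans (norm_fst_le (z - w))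
    have hz2 : ∀ i, ‖z.2 i - w.2 i‖ ≤ ‖z - w‖ := fun i =>
      (norm_le_pi_norm (z.2 - w.2) i).trans (norm_snd_le (z - w))
    have hn := norm_nonneg (z - w)
    rw [Prod.norm_def]
    refine max_le ?_ ?_
    · rw [pi_norm_le_iff_of_nonneg (by positivity)]
      intro i
      have h1 := cut_lip hB (z.2 i) (w.2 i)
      have h2 := hz2 i
      have h3 : 0 ≤ 8 * M / ε ^ 3 * ‖z - w‖ := by positivity
      show ‖cut B (z.2 i) - cut B (w.2 i)‖ ≤ _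
      linarith
    · rw [pi_norm_le_iff_of_nonneg (by positivity)]
      intro i
      show ‖acce ε m z.1 i - acce ε m w.1 i‖ ≤ _
      unfold acce
      rw [← Finset.sum_sub_distrib]
      have h1 : ∀ b ∈ Finset.univ.erase i, ‖(m b : ℂ) * ker ε (z.1 b - z.1 i) - (m b : ℂ) * ker ε (w.1 b - w.1 i)‖ ≤
          m b * (8 / ε ^ 3 * ‖z - w‖) := by
        intro b _
        rw [← mul_sub, norm_mul, Complex.norm_real, Real.norm_of_nonneg (hm b).le]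
        refine mul_le_mul_of_nonneg_left ?_ (hm b).le
        refine (ker_lip hε _ _).trans ?_
        have h2 : ‖z.1 b - z.1 i - (w.1 b - w.1 i)‖ ≤ 2 * ‖z - w‖ := by
          have h3 : z.1 b - z.1 i - (w.1 b - w.1 i) = (z.1 b - w.1 b) - (z.1 i - w.1 i) := by ring
          rw [h3]
          have := norm_sub_le (z.1 b - w.1 b) (z.1 i - w.1 i)
          linarith [hz1 b, hz1 i]
        calc 4 / ε ^ 3 * ‖z.1 b - z.1 i - (w.1 b - w.1 i)‖ ≤ 4 / ε ^ 3 * (2 * ‖z - w‖) := by gcongr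
          _ = _ := by ring
      refine (norm_sum_le _ _).trans ((Finset.sum_le_sum h1).trans ?_)
      rw [← Finset.sum_mul]
      calc (∑ b ∈ Finset.univ.erase i, m b) * (8 / ε ^ 3 * ‖z - w‖) ≤ M * (8 / ε ^ 3 * ‖z - w‖) := by
            gcongr
            exact hsub i
        _ = 8 * M / ε ^ 3 * ‖z - w‖ := by ring
        _ ≤ _ := by nlinarith
  have hbd : ∀ z, ‖fld ε B m z‖ ≤ (⟨B + M / ε ^ 2, by positivity⟩ : ℝ≥0) := by
    intro z
    change _ ≤ B + M / ε ^ 2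
    rw [Prod.norm_def]
    refine max_le ?_ ?_
    · rw [pi_norm_le_iff_of_nonneg (by positivity)]
      intro i
      have h1 := cut_norm hB (z.2 i)
      have h2 : 0 ≤ M / ε ^ 2 := by positivity
      show ‖cut B (z.2 i)‖ ≤ _
      linarith
    · rw [pi_norm_le_iff_of_nonneg (by positivity)]
      intro i
      show ‖acce ε m z.1 i‖ ≤ _
      unfold acce
      have h1 : ∀ b ∈ Finset.univ.erase i, ‖(m b : ℂ) * ker ε (z.1 b - z.1 i)‖ ≤ m b * (1 / ε ^ 2) := by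
        intro b _
        rw [norm_mul, Complex.norm_real, Real.norm_of_nonneg (hm b).le]
        exact mul_le_mul_of_nonneg_left (ker_norm hε _) (hm b).le
      refine (norm_sum_le _ _).trans ((Finset.sum_le_sum h1).trans ?_)
      rw [← Finset.sum_mul]
      calc (∑ b ∈ Finset.univ.erase i, m b) * (1 / ε ^ 2) ≤ M * (1 / ε ^ 2) := by gcongr; exact hsub i
        _ = M / ε ^ 2 := by ring
        _ ≤ _ := by linarith
  exact Pool.Agent.GR.Flow.exists_solution hlip hbd z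

end Pool.Agent.Q85.UB
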