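import Pool.Agent.Q85.UB.Com

/-! The changes of the velocities. -/

set_option autoImplicit false

namespace Pool.Agent.Q85.UB

open Pool.Agent.W821.TB
open Pool.Agent.Y516.NW (E3 Cfg Mot cm P2)
open Set

/-- the change of the velocities of the pair -/
noncomputable def pk (m : Fin 3 → ℝ) (a b : Fin 3) (k : ℂ) (v : Fin 3 → ℂ) (i : Fin 3) : ℂ :=
  v i + (if i = a then ((-(m b / (m a + m b)) : ℝ) : ℂ) else if i = b then ((m a / (m a + m b) : ℝ) : ℂ) else 0) * k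

theorem pk_sum (m : Fin 3 → ℝ) (hm : ∀ i, 0 < m i) (a b c : Fin 3) (hab : a ≠ b) (hca : c ≠ a) (hcb : c ≠ b)
    (k : ℂ) (v : Fin 3 → ℂ) : ∑ i, (m i : ℂ) * pk m a b k v i = ∑ i, (m i : ℂ) * v i := by
  have hs : (0 : ℝ) < m a + m b := by have := hm a; have := hm b; linarith
  have hsc : ((m a : ℂ) + (m b : ℂ)) ≠ 0 := by
    rw [← Complex.ofReal_add]
    exact Complex.ofReal_ne_zero.mpr hs.ne'
  rw [sum3 _ a b c hab hca hcb, sum3 _ a b c hab hca hcb]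
  unfold pk
  rw [if_pos rfl, if_neg hab.symm, if_pos rfl, if_neg hca, if_neg hcb]
  push_cast
  field_simp
  ring

theorem pk_rel (m : Fin 3 → ℝ) (hm : ∀ i, 0 < m i) (a b c : Fin 3) (hab : a ≠ b) (hca : c ≠ a) (hcb : c ≠ b)
    (k : ℂ) (v : Fin 3 → ℂ) : prel m (pk m a b k v) a b c = prel m v a b c := by
  have hs : (0 : ℝ) < m a + m b := by have := hm a; have := hm b; linarith
  have hsc : ((m a : ℂ) + (m b : ℂ)) ≠ 0 := by
    rw [← Complex.ofReal_add]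
    exact Complex.ofReal_ne_zero.mpr hs.ne'
  unfold prel pk
  rw [if_pos rfl, if_neg hab.symm, if_pos rfl, if_neg hca, if_neg hcb]
  push_cast
  field_simp
  ring

theorem pk_diff (m : Fin 3 → ℝ) (hm : ∀ i, 0 < m i) (a b : Fin 3) (hab : a ≠ b) (k : ℂ) (v : Fin 3 → ℂ) :
    pk m a b k v b - pk m a b k v a = v b - v a + k := by
  have hs : (0 : ℝ) < m a + m b := by have := hm a; have := hm b; linarith
  have hsc : ((m a : ℂ) + (m b : ℂ)) ≠ 0 := by
    rw [← Complex.ofReal_add]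
    exact Complex.ofReal_ne_zero.mpr hs.ne'
  unfold pk
  rw [if_pos rfl, if_neg hab.symm, if_pos rfl]
  push_cast
  field_simp
  ring

theorem pk_norm (m : Fin 3 → ℝ) (hm : ∀ i, 0 < m i) (a b : Fin 3) (k : ℂ) (v : Fin 3 → ℂ) (i : Fin 3) :
    ‖pk m a b k v i - v i‖ ≤ ‖k‖ := by
  have ha := hm a
  have hb := hm b
  have hs : (0 : ℝ) < m a + m b := by linarith
  unfold pk
  rw [add_sub_cancel_left, norm_mul]
  refine mul_le_of_le_one_left (norm_nonneg _) ?_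
  split_ifs
  · rw [Complex.norm_real, Real.norm_eq_abs, abs_neg, abs_of_pos (by positivity), div_le_one hs]
    linarith
  · rw [Complex.norm_real, Real.norm_eq_abs, abs_of_pos (by positivity), div_le_one hs]
    linarith
  · simp

theorem kick_diff (m : Fin 3 → ℝ) (a b c : Fin 3) (hca : c ≠ a) (hcb : c ≠ b) (w : ℂ) (v : Fin 3 → ℂ) :
    kick m c w v b - kick m c w v a = v b - v a := by
  unfold kick
  rw [if_neg hca.symm, if_neg hcb.symm]
  ring

theorem energy_change (m : Fin 3 → ℝ) (M : ℝ) (hm : ∀ i, 0 < m i) (hM : M = ∑ i, m i) (z z' : Ph 3)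
    (h1 : z'.1 = z.1) (A D : ℝ) (hA : ∀ i, ‖z.2 i‖ ≤ A) (hD : ∀ i, ‖z'.2 i - z.2 i‖ ≤ D) :
    energy m z' ≤ energy m z + M * (A * D + D ^ 2 / 2) := by
  unfold energy
  rw [h1]
  have hA0 : 0 ≤ A := (norm_nonneg _).trans (hA 0)
  have hD0 : 0 ≤ D := (norm_nonneg _).trans (hD 0)
  have h2 : ∀ i ∈ (Finset.univ : Finset (Fin 3)), m i * ‖z'.2 i‖ ^ 2 ≤ m i * ‖z.2 i‖ ^ 2 + m i * (2 * A * D + D ^ 2) := by
    intro i _
    rw [← mul_add]
    refine mul_le_mul_of_nonneg_left ?_ (hm i).le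
    have e1 : ‖z'.2 i‖ ≤ ‖z.2 i‖ + D := by
      have e2 : z'.2 i = z.2 i + (z'.2 i - z.2 i) := by ring
      rw [e2]
      exact (norm_add_le _ _).trans (by have := hD i; linarith)
    have e3 : ‖z'.2 i‖ ^ 2 ≤ (‖z.2 i‖ + D) ^ 2 := by gcongr
    have e4 : ‖z.2 i‖ * D ≤ A * D := by gcongr; exact hA i
    nlinarith
  have h3 := Finset.sum_le_sum h2
  rw [Finset.sum_add_distrib, ← Finset.sum_mul, ← hM] at h3
  linarith

theorem kickz (m : Fin 3 → ℝ) (hm : ∀ i, 0 < m i) (a b c : Fin 3) (hab : a ≠ b) (hca : c ≠ a) (hcb : c ≠ b)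
    (z : Ph 3) (hz : z ∈ phaseSpace m) (hX : prel m z.1 a b c ≠ 0) (w s : ℝ) (hw : 0 < w) (hs : 0 ≤ s) :
    ∃ z' ∈ phaseSpace m, z'.1 = z.1 ∧ (∀ i, ‖z'.2 i - z.2 i‖ ≤ 2 * w + ‖prel m z.2 a b c‖ + s) ∧
      0 < inner ℝ (io (prel m z'.1 a b c)) (io (prel m z'.2 a b c)) ∧ ‖prel m z'.2 a b c‖ = 2 * w ∧
      s * ‖z.1 a - z.1 b‖ ≤ |LM z' a b| := by
  obtain ⟨X, hXd⟩ : ∃ X, X = prel m z.1 a b c := ⟨_, rfl⟩
  obtain ⟨V, hVd⟩ : ∃ V, V = prel m z.2 a b c := ⟨_, rfl⟩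
  obtain ⟨R, hR⟩ : ∃ R, R = z.1 b - z.1 a := ⟨_, rfl⟩
  rw [← hXd] at hX
  have hX0 : 0 < ‖X‖ := norm_pos_iff.mpr hX
  have hR0 : R ≠ 0 := by rw [hR]; exact sub_ne_zero.mpr (hz.1 b a hab.symm)
  have hRn : 0 < ‖R‖ := norm_pos_iff.mpr hR0
  obtain ⟨σ, hσ, hσL⟩ : ∃ σ : ℝ, |σ| = 1 ∧ 0 ≤ σ * LM z a b := by
    rcases le_or_gt 0 (LM z a b) with h | h
    · exact ⟨1, by norm_num, by linarith⟩
    · exact ⟨-1, by norm_num, by linarith⟩
  obtain ⟨k, hk⟩ : ∃ k : ℂ, k = ((σ * s / ‖R‖ : ℝ) : ℂ) * (Complex.I * R) := ⟨_, rfl⟩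
  have hkn : ‖k‖ = s := by
    rw [hk, norm_mul, norm_mul, Complex.norm_I, one_mul, Complex.norm_real, Real.norm_eq_abs, abs_div, abs_mul, hσ,
      one_mul, abs_of_nonneg hs, abs_of_pos hRn]
    field_simp
  obtain ⟨V', hV'⟩ : ∃ V' : ℂ, V' = ((2 * w / ‖X‖ : ℝ) : ℂ) * X := ⟨_, rfl⟩
  have hV'n : ‖V'‖ = 2 * w := by
    rw [hV', norm_mul, Complex.norm_real, Real.norm_of_nonneg (by positivity)]
    field_simp
  have hprel : prel m (kick m c (V' - V) (pk m a b k z.2)) a b c = V' := by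
    rw [kick_rel m hm a b c hca hcb, pk_rel m hm a b c hab hca hcb, ← hVd]
    ring
  refine ⟨(z.1, kick m c (V' - V) (pk m a b k z.2)), ⟨hz.1, hz.2.1, ?_⟩, rfl, fun i => ?_, ?_, ?_, ?_⟩
  · show ∑ i, (m i : ℂ) * kick m c (V' - V) (pk m a b k z.2) i = 0
    rw [kick_sum m hm, pk_sum m hm a b c hab hca hcb]
    exact hz.2.2
  · show ‖kick m c (V' - V) (pk m a b k z.2) i - z.2 i‖ ≤ _
    have e1 := kick_norm m hm c (V' - V) (pk m a b k z.2) i
    have e2 := pk_norm m hm a b k z.2 i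
    have e3 := norm_sub_le V' V
    have e4 : kick m c (V' - V) (pk m a b k z.2) i - z.2 i =
      (kick m c (V' - V) (pk m a b k z.2) i - pk m a b k z.2 i) + (pk m a b k z.2 i - z.2 i) := by ring
    rw [e4, ← hVd]
    refine (norm_add_le _ _).trans ?_
    rw [hkn] at e2
    rw [hV'n] at e3
    linarith
  · show 0 < inner ℝ (io (prel m z.1 a b c)) (io (prel m (kick m c (V' - V) (pk m a b k z.2)) a b c))
    rw [hprel, ← hXd, hV', ← Complex.real_smul, map_smul, inner_smul_right, real_inner_self_eq_norm_sq, io_norm]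
    positivity
  · show ‖prel m (kick m c (V' - V) (pk m a b k z.2)) a b c‖ = 2 * w
    rw [hprel, hV'n]
  · have e1 : LM (z.1, kick m c (V' - V) (pk m a b k z.2)) a b = LM z a b + σ * s * ‖R‖ := by
      unfold LM
      simp only
      rw [kick_diff m a b c hca hcb, pk_diff m hm a b hab, ← hR, mul_add, Complex.add_im]
      congr 1
      have e2 : (starRingEnd ℂ) R * k = ((σ * s / ‖R‖ * ‖R‖ ^ 2 : ℝ) : ℂ) * Complex.I := by
        rw [hk]
        have e3 : (starRingEnd ℂ) R * R = ((‖R‖ ^ 2 : ℝ) : ℂ) := by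
          rw [mul_comm, Complex.mul_conj, Complex.normSq_eq_norm_sq]
        calc (starRingEnd ℂ) R * (((σ * s / ‖R‖ : ℝ) : ℂ) * (Complex.I * R))
            = ((σ * s / ‖R‖ : ℝ) : ℂ) * Complex.I * ((starRingEnd ℂ) R * R) := by ring
          _ = _ := by rw [e3]; push_cast; ring
      rw [e2, Complex.mul_I_im, Complex.ofReal_re]
      field_simp
    rw [e1, norm_sub_rev, ← hR]
    have e3 : s * ‖R‖ ≤ σ * (LM z a b + σ * s * ‖R‖) := by
      have : σ * σ = 1 := by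
        have := abs_mul_abs_self σ
        rw [hσ] at this
        linarith
      have e5 : σ * (LM z a b + σ * s * ‖R‖) = σ * LM z a b + (σ * σ) * (s * ‖R‖) := by ring
      rw [e5, this]
      linarith
    refine e3.trans ((le_abs_self _).trans ?_)
    rw [abs_mul, hσ, one_mul]

end Pool.Agent.Q85.UB
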