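import Pool.Agent.Q85.UB.Kick2

/-! Unbounded solutions near the hierarchical states of bounded solutions. -/

set_option autoImplicit false

namespace Pool.Agent.Q85.UB

open Pool.Agent.W821.TB
open Pool.Agent.Y516.NW (E3 Cfg Mot cm P2)
open Set

theorem unbounded_near (m : Fin 3 → ℝ) (hm : ∀ i, 0 < m i) (Cb : ℝ) (hCb : 0 < Cb) :
    ∃ C : ℝ, 0 < C ∧ ∀ z ∈ phaseSpace m, ∀ a b c : Fin 3, a ≠ b → c ≠ a → c ≠ b →
      ∀ r ρ w : ℝ, r = ‖z.1 a - z.1 b‖ → ρ = min ‖z.1 c - z.1 a‖ ‖z.1 c - z.1 b‖ → 0 < w →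
        w ^ 6 * (ρ ^ 2 * r) = 1 → C * r ≤ ρ → ‖prel m z.2 a b c‖ ^ 2 * ρ ≤ Cb → C ≤ ρ * r ^ 2 * (-energy m z) ^ 3 →
        ∃ z' ∈ phaseSpace m, z'.1 = z.1 ∧ (∀ i, ‖z'.2 i - z.2 i‖ ≤ C * w) ∧
          ∃ U : Set (Ph 3), IsOpen U ∧ z' ∈ U ∧ ∀ y₀ ∈ U, y₀ ∈ phaseSpace m →
            ∃ (γ : ℝ → Ph 3) (η : ℝ), 0 < η ∧ γ 0 = y₀ ∧
              (∀ t, -η < t → γ t ∈ phaseSpace m ∧ HasDerivAt γ ((γ t).2, acc m (γ t).1) t) ∧
              ∀ t, 0 ≤ t → (ρ + w * t) / 16 ≤ min ‖(γ t).1 c - (γ t).1 a‖ ‖(γ t).1 c - (γ t).1 b‖ := by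
  obtain ⟨μ, hμ, hμm⟩ : ∃ μ : ℝ, 0 < μ ∧ ∀ i, μ ≤ m i := by
    obtain ⟨μi, _, hμi⟩ := Finset.exists_min_image Finset.univ m ⟨0, Finset.mem_univ _⟩
    exact ⟨m μi, hm μi, fun i => hμi i (Finset.mem_univ _)⟩
  obtain ⟨M, hMdef⟩ : ∃ M : ℝ, M = ∑ i, m i := ⟨_, rfl⟩
  have hM : 0 < M := by
    rw [hMdef]; exact Finset.sum_pos (fun i _ => hm i) ⟨0, Finset.mem_univ _⟩
  obtain ⟨A, hA⟩ : ∃ A : ℝ, A = M + M ^ 2 / μ := ⟨_, rfl⟩
  have hApos : 0 < A := by rw [hA]; positivity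
  obtain ⟨KL, hKL⟩ : ∃ KL : ℝ, KL = 2 ^ 20 * M ^ 5 / μ ^ 2 := ⟨_, rfl⟩
  have hKLpos : 0 < KL := by rw [hKL]; positivity
  obtain ⟨K4, hK4⟩ : ∃ K4 : ℝ, K4 = 2 + (1 + Cb) + 8 * KL := ⟨_, rfl⟩
  have hK4pos : 0 < K4 := by rw [hK4]; positivity
  obtain ⟨K6, hK6⟩ : ∃ K6 : ℝ, K6 = 1 + 10 * M ^ 2 / μ := ⟨_, rfl⟩
  have hK6pos : 0 < K6 := by rw [hK6]; positivity
  obtain ⟨K7, hK7⟩ : ∃ K7 : ℝ, K7 = M * (K6 * K4 + K4 ^ 2) := ⟨_, rfl⟩
  have hK7pos : 0 < K7 := by rw [hK7]; positivity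
  obtain ⟨C, hC⟩ : ∃ C : ℝ, C = K7 ^ 3 + (4000 * A) ^ 3 + 257 + K4 := ⟨_, rfl⟩
  have hCpos : 0 < C := by rw [hC]; positivity
  have hC7 : K7 ^ 3 < C := by rw [hC]; nlinarith [pow_pos (mul_pos (by norm_num : (0 : ℝ) < 4000) hApos) 3]
  have hCA : (4000 * A) ^ 3 ≤ C := by rw [hC]; nlinarith [pow_pos hK7pos 3]
  have hC257 : 257 ≤ C := by
    rw [hC]; nlinarith [pow_pos hK7pos 3, pow_pos (mul_pos (by norm_num : (0 : ℝ) < 4000) hApos) 3]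
  have hC4 : K4 ≤ C := by
    rw [hC]; nlinarith [pow_pos hK7pos 3, pow_pos (mul_pos (by norm_num : (0 : ℝ) < 4000) hApos) 3]
  refine ⟨C, hCpos, ?_⟩
  intro z hz a b c hab hca hcb r ρ w hr hρ hw hw6 hCr hVb hE
  have hr0 : 0 < r := by rw [hr]; exact norm_pos_iff.mpr (sub_ne_zero.mpr (hz.1 a b hab))
  have hca0 : 0 < ‖z.1 c - z.1 a‖ := norm_pos_iff.mpr (sub_ne_zero.mpr (hz.1 c a hca))
  have hcb0 : 0 < ‖z.1 c - z.1 b‖ := norm_pos_iff.mpr (sub_ne_zero.mpr (hz.1 c b hcb))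
  have hρ0 : 0 < ρ := by rw [hρ]; exact lt_min hca0 hcb0
  have hρa : ρ ≤ ‖z.1 c - z.1 a‖ := by rw [hρ]; exact min_le_left _ _
  have hρb : ρ ≤ ‖z.1 c - z.1 b‖ := by rw [hρ]; exact min_le_right _ _
  have hr257 : 257 * r ≤ ρ := (mul_le_mul_of_nonneg_right hC257 hr0.le).trans hCr
  obtain ⟨h, hh⟩ : ∃ h : ℝ, h = -energy m z := ⟨_, rfl⟩
  rw [← hh] at hE
  have hh3 : 0 < h ^ 3 := by
    by_contra hcon
    have h1 : ρ * r ^ 2 * h ^ 3 ≤ 0 := mul_nonpos_of_nonneg_of_nonpos (by positivity) (not_lt.mp hcon)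
    linarith
  have hh0 : 0 < h := by
    by_contra hcon
    have h1 : h ≤ 0 := not_lt.mp hcon
    have h2 : h ^ 3 ≤ 0 := by
      have : h ^ 3 = h * h ^ 2 := by ring
      rw [this]
      exact mul_nonpos_of_nonpos_of_nonneg h1 (sq_nonneg _)
    linarith
  -- the powers of `w`
  have hw2 : (w ^ 2 * ρ) ^ 3 = ρ / r := by
    rw [eq_div_iff hr0.ne']
    calc (w ^ 2 * ρ) ^ 3 * r = w ^ 6 * (ρ ^ 2 * r) * ρ := by ring
      _ = ρ := by rw [hw6, one_mul]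
  have hw2A : 4000 * A ≤ w ^ 2 * ρ := by
    have h1 : (4000 * A) ^ 3 ≤ (w ^ 2 * ρ) ^ 3 := by
      rw [hw2, le_div_iff₀ hr0]
      exact (mul_le_mul_of_nonneg_right hCA hr0.le).trans hCr
    exact (pow_le_pow_iff_left₀ (by positivity) (by positivity) (by norm_num)).mp h1
  have hw21 : 1 ≤ w ^ 2 * ρ := by
    have h1 : 1 ^ 3 ≤ (w ^ 2 * ρ) ^ 3 := by
      rw [hw2, le_div_iff₀ hr0]
      linarith
    exact (pow_le_pow_iff_left₀ (by positivity) (by positivity) (by norm_num)).mp h1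
  obtain ⟨ψ, hψ⟩ : ∃ ψ : ℝ, ψ = 1 / Real.sqrt r := ⟨_, rfl⟩
  have hsr : 0 < Real.sqrt r := Real.sqrt_pos.mpr hr0
  have hψ0 : 0 < ψ := by rw [hψ]; positivity
  have hψ2 : ψ ^ 2 * r = 1 := by
    rw [hψ, div_pow, Real.sq_sqrt hr0.le, one_pow, one_div, inv_mul_cancel₀ hr0.ne']
  have hψw : w ≤ ψ := by
    have h1 : (w ^ 2 * r) ^ 3 ≤ 1 ^ 3 := by
      have e1 : (w ^ 2 * r) ^ 3 = w ^ 6 * (r ^ 2 * r) := by ring
      have e2 : w ^ 6 * (r ^ 2 * r) ≤ w ^ 6 * (ρ ^ 2 * r) := by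
        have : r ≤ ρ := by linarith
        gcongr
      rw [e1, one_pow, ← hw6]
      exact e2
    have h2 : w ^ 2 * r ≤ 1 := (pow_le_pow_iff_left₀ (by positivity) (by positivity) (by norm_num)).mp h1
    have h3 : w ^ 2 * r ≤ ψ ^ 2 * r := by rw [hψ2]; exact h2
    have h4 : w ^ 2 ≤ ψ ^ 2 := le_of_mul_le_mul_right h3 hr0
    exact (sq_le_sq₀ hw.le hψ0.le).mp h4
  have hψw3 : (ψ * w) ^ 3 * (ρ * r ^ 2) = 1 := by
    have h1 : ((ψ * w) ^ 3 * (ρ * r ^ 2)) ^ 2 = 1 := by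
      calc ((ψ * w) ^ 3 * (ρ * r ^ 2)) ^ 2 = (ψ ^ 2 * r) ^ 3 * (w ^ 6 * (ρ ^ 2 * r)) := by ring
        _ = 1 := by rw [hψ2, hw6]; norm_num
    have h2 : 0 ≤ (ψ * w) ^ 3 * (ρ * r ^ 2) := by positivity
    exact (pow_eq_one_iff_of_nonneg h2 two_ne_zero).mp h1
  have hgain : K7 * (ψ * w) < h := by
    by_contra hcon
    have h1 : h ≤ K7 * (ψ * w) := not_lt.mp hcon
    have h2 : h ^ 3 ≤ (K7 * (ψ * w)) ^ 3 := by gcongr
    have h3 : ρ * r ^ 2 * h ^ 3 ≤ ρ * r ^ 2 * (K7 * (ψ * w)) ^ 3 := by gcongr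
    have h4 : ρ * r ^ 2 * (K7 * (ψ * w)) ^ 3 = K7 ^ 3 * ((ψ * w) ^ 3 * (ρ * r ^ 2)) := by ring
    rw [h4, hψw3, mul_one] at h3
    linarith
  -- the velocities of `z`
  have hpair : ∀ i j : Fin 3, P2 a b i j → ρ ≤ ‖z.1 i - z.1 j‖ := by
    intro i j hP
    have hi := Pool.Agent.Q130.NX.fin3 a b c hab hca hcb i
    have hj := Pool.Agent.Q130.NX.fin3 a b c hab hca hcb j
    obtain ⟨h1, h2, h3⟩ := hP
    rcases hi with rfl | rfl | rfl <;> rcases hj with rfl | rfl | rfl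
    · exact absurd rfl h1
    · exact absurd ⟨rfl, rfl⟩ h2
    · rw [norm_sub_rev]; exact hρa
    · exact absurd ⟨rfl, rfl⟩ h3
    · exact absurd rfl h1
    · rw [norm_sub_rev]; exact hρb
    · exact hρa
    · exact hρb
    · exact absurd rfl h1
  obtain ⟨hst, _⟩ := stat m M μ hμ hμm hMdef a b hab z (hz.1 a b hab) (by linarith) ρ hρ0
    (fun i j h => by have := hpair i j h; linarith) (by rw [← hr]; linarith)
  rw [← hr] at hst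
  have hvA : ∀ i, ‖z.2 i‖ ≤ K6 * ψ := by
    intro i
    have h1 := hst i
    have h2 : 10 * M ^ 2 / (μ * r) = 10 * M ^ 2 / μ * ψ ^ 2 := by
      have : ψ ^ 2 = 1 / r := by rw [eq_div_iff hr0.ne']; exact hψ2
      rw [this]; field_simp
    have h3 : 10 * M ^ 2 / μ ≤ K6 ^ 2 := by
      have : 0 ≤ 10 * M ^ 2 / μ := by positivity
      rw [hK6]; nlinarith
    have h4 : ‖z.2 i‖ ^ 2 ≤ (K6 * ψ) ^ 2 := by
      rw [h2] at h1
      calc ‖z.2 i‖ ^ 2 ≤ 10 * M ^ 2 / μ * ψ ^ 2 := h1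
        _ ≤ K6 ^ 2 * ψ ^ 2 := by gcongr
        _ = (K6 * ψ) ^ 2 := by ring
    exact (sq_le_sq₀ (norm_nonneg _) (by positivity)).mp h4
  have hV : ‖prel m z.2 a b c‖ ≤ (1 + Cb) * w := by
    have h1 : ‖prel m z.2 a b c‖ ^ 2 * ρ ≤ ((1 + Cb) * w) ^ 2 * ρ := by
      refine hVb.trans ?_
      have h2 : Cb ≤ (1 + Cb) ^ 2 := by nlinarith
      calc Cb ≤ (1 + Cb) ^ 2 * 1 := by linarith
        _ ≤ (1 + Cb) ^ 2 * (w ^ 2 * ρ) := by gcongr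
        _ = ((1 + Cb) * w) ^ 2 * ρ := by ring
    have h2 := le_of_mul_le_mul_right h1 hρ0
    exact (sq_le_sq₀ (norm_nonneg _) (by positivity)).mp h2
  have hXne : prel m z.1 a b c ≠ 0 := by
    intro h0
    have ha := hm a
    have hb := hm b
    have hs : (0 : ℝ) < m a + m b := by linarith
    have hsc : ((m a : ℂ) + (m b : ℂ)) ≠ 0 := by
      rw [← Complex.ofReal_add]
      exact Complex.ofReal_ne_zero.mpr hs.ne'
    have h1 : ((m a + m b : ℝ) : ℂ) * (z.1 c - z.1 a) = -((m b : ℂ) * (z.1 a - z.1 b)) := by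
      have h2 : z.1 c = ((m a : ℂ) * z.1 a + (m b : ℂ) * z.1 b) / ((m a : ℂ) + (m b : ℂ)) := sub_eq_zero.mp h0
      rw [h2]
      push_cast
      field_simp
      ring
    have h3 := congrArg norm h1
    rw [norm_neg, norm_mul, norm_mul, Complex.norm_real, Complex.norm_real, Real.norm_of_nonneg hs.le,
      Real.norm_of_nonneg hb.le, ← hr] at h3
    have h4 : (m a + m b) * ρ ≤ m b * r := by
      rw [← h3]
      exact mul_le_mul_of_nonneg_left hρa hs.le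
    have h5 : m b * r < (m a + m b) * ρ := by
      have : r < ρ := by linarith
      exact mul_lt_mul'' (by linarith) this hb.le hr0.le
    linarith
  obtain ⟨z', hz', h1, h2, h3, h4, h5⟩ := kickz m hm a b c hab hca hcb z hz hXne w (8 * KL * w) hw (by positivity)
  have hD : ∀ i, ‖z'.2 i - z.2 i‖ ≤ K4 * w := by
    intro i
    refine (h2 i).trans ?_
    rw [hK4]
    linarith
  have hE' : energy m z' < 0 := by
    have e1 := energy_change m M hm hMdef z z' h1 (K6 * ψ) (K4 * w) hvA hD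
    have e2 : M * (K6 * ψ * (K4 * w) + (K4 * w) ^ 2 / 2) ≤ K7 * (ψ * w) := by
      rw [hK7]
      have e3 : w ^ 2 ≤ ψ * w := by rw [pow_two]; gcongr
      have e4 : K6 * ψ * (K4 * w) + (K4 * w) ^ 2 / 2 ≤ (K6 * K4 + K4 ^ 2) * (ψ * w) := by
        have e5 : (K4 * w) ^ 2 ≤ K4 ^ 2 * (ψ * w) := by rw [mul_pow]; gcongr
        have e6 : 0 ≤ (K4 * w) ^ 2 := sq_nonneg _
        linarith
      calc M * (K6 * ψ * (K4 * w) + (K4 * w) ^ 2 / 2) ≤ M * ((K6 * K4 + K4 ^ 2) * (ψ * w)) := by gcongr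
        _ = _ := by ring
    linarith
  refine ⟨z', hz', h1, fun i => (hD i).trans (by gcongr), good m a b c w (ρ / 2) KL, good_open m a b c w _ _, ?_, ?_⟩
  · refine ⟨⟨⟨⟨⟨⟨⟨?_, ?_⟩, ?_⟩, ?_⟩, ?_⟩, ?_⟩, ?_⟩, ?_⟩
    · exact hz'.1
    · exact hE'
    · show ρ / 2 < ‖z'.1 c - z'.1 a‖
      rw [h1]; linarith
    · show ρ / 2 < ‖z'.1 c - z'.1 b‖
      rw [h1]; linarith
    · show ‖z'.1 a - z'.1 b‖ < ρ / 2 / 128
      rw [h1, ← hr]; linarith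
    · exact h3
    · show w < ‖prel m z'.2 a b c‖
      rw [h4]; linarith
    · show KL < |LM z' a b| * (w ^ 5 * (ρ / 2) ^ 2)
      rw [← hr] at h5
      calc KL < 2 * KL := by linarith
        _ = 2 * KL * (w ^ 6 * (ρ ^ 2 * r)) := by rw [hw6, mul_one]
        _ = 8 * KL * w * r * (w ^ 5 * (ρ / 2) ^ 2) := by ring
        _ ≤ _ := by gcongr
  · intro y₀ hy hyp
    rw [hKL] at hy
    obtain ⟨γ, η, hη, h0, hsol, hd⟩ := good_sol m M μ hμ hμm hMdef a b c hab hca hcb w (ρ / 2) hw (by positivity)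
      (by rw [← hA]; linarith) y₀ hy hyp
    refine ⟨γ, η, hη, h0, hsol, fun t ht => ?_⟩
    obtain ⟨g1, g2⟩ := hd t ht
    have g3 : 0 ≤ w * t := by positivity
    exact le_min (by linarith) (by linarith)

end Pool.Agent.Q85.UB
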