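import Pool.Agent.Q85.UB.Bound

/-! Open sets without bounded solutions near a given state. -/

set_option autoImplicit false

namespace Pool.Agent.Q85.UB

open Pool.Agent.W821.TB
open Pool.Agent.Q130.NX (fin3)

theorem univ3 (a b c : Fin 3) (hab : a ≠ b) (hca : c ≠ a) (hcb : c ≠ b) :
    (Finset.univ : Finset (Fin 3)) = {a, b, c} := by
  symm
  rw [Finset.eq_univ_iff_forall]
  intro i
  rcases fin3 a b c hab hca hcb i with rfl | rfl | rfl <;> simp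

theorem sum3 {G : Type*} [AddCommMonoid G] (f : Fin 3 → G) (a b c : Fin 3) (hab : a ≠ b) (hca : c ≠ a)
    (hcb : c ≠ b) : ∑ i, f i = f a + f b + f c := by
  rw [univ3 a b c hab hca hcb, Finset.sum_insert, Finset.sum_insert, Finset.sum_singleton, add_assoc]
  · simp only [Finset.mem_singleton]
    exact fun h => hcb h.symm
  · simp only [Finset.mem_insert, Finset.mem_singleton, not_or]
    exact ⟨hab, fun h => hca h.symm⟩

theorem bound (m : Fin 3 → ℝ) (hm : ∀ i, 0 < m i) : ∃ C : ℝ, 0 < C ∧ ∀ x : ℝ → Ph 3, IsSol m Set.univ x → Bdd x →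
    ∀ t : ℝ, ∀ a b c : Fin 3, a ≠ b → c ≠ a → c ≠ b →
      ‖prel m (x t).2 a b c‖ ^ 2 * min ‖(x t).1 c - (x t).1 a‖ ‖(x t).1 c - (x t).1 b‖ ≤ C := by
  obtain ⟨C, hC, h⟩ := bound0 m hm
  refine ⟨C, hC, fun x hx hb t a b c hab hca hcb => ?_⟩
  obtain ⟨R, hR⟩ := hb
  have h1 := h (fun s => x (s + t)) (hx.shift t) ⟨R, fun s a b => hR (s + t) a b⟩ a b c hab hca hcb
  simpa only [zero_add] using h1

/-- the change of the velocities -/
noncomputable def kick (m : Fin 3 → ℝ) (c : Fin 3) (w : ℂ) (v : Fin 3 → ℂ) (i : Fin 3) : ℂ :=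
  v i + (if i = c then ((1 - m c / ∑ j, m j : ℝ) : ℂ) else ((-(m c / ∑ j, m j) : ℝ) : ℂ)) * w

theorem kick_rel (m : Fin 3 → ℝ) (hm : ∀ i, 0 < m i) (a b c : Fin 3) (hca : c ≠ a) (hcb : c ≠ b)
    (w : ℂ) (v : Fin 3 → ℂ) : prel m (kick m c w v) a b c = prel m v a b c + w := by
  have hs : (0 : ℝ) < m a + m b := by have := hm a; have := hm b; linarith
  have hsc : ((m a : ℂ) + (m b : ℂ)) ≠ 0 := by
    rw [← Complex.ofReal_add]
    exact Complex.ofReal_ne_zero.mpr hs.ne'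
  unfold prel kick
  rw [if_pos rfl, if_neg hca.symm, if_neg hcb.symm]
  push_cast
  field_simp
  ring

theorem kick_sum (m : Fin 3 → ℝ) (hm : ∀ i, 0 < m i) (c : Fin 3) (w : ℂ) (v : Fin 3 → ℂ) :
    ∑ i, (m i : ℂ) * kick m c w v i = ∑ i, (m i : ℂ) * v i := by
  have hM : 0 < ∑ b, m b := Finset.sum_pos (fun i _ => hm i) ⟨0, Finset.mem_univ _⟩
  have h1 : ∀ i, (m i : ℂ) * kick m c w v i = (m i : ℂ) * v i + ((m i : ℂ) * ((-(m c / ∑ j, m j) : ℝ) : ℂ) * w +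
      if i = c then (m c : ℂ) * w else 0) := by
    intro i
    unfold kick
    split_ifs with h
    · subst h
      push_cast
      ring
    · ring
  rw [Finset.sum_congr rfl fun i _ => h1 i, Finset.sum_add_distrib, Finset.sum_add_distrib, Finset.sum_ite_eq',
    if_pos (Finset.mem_univ c), ← Finset.sum_mul, ← Finset.sum_mul, ← Complex.ofReal_sum]
  have h2 : ((∑ i, m i : ℝ) : ℂ) * ((-(m c / ∑ j, m j) : ℝ) : ℂ) = -(m c : ℂ) := by
    rw [← Complex.ofReal_mul, mul_neg, mul_div_cancel₀ _ hM.ne', Complex.ofReal_neg]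
  rw [h2]
  ring

theorem kick_norm (m : Fin 3 → ℝ) (hm : ∀ i, 0 < m i) (c : Fin 3) (w : ℂ) (v : Fin 3 → ℂ) (i : Fin 3) :
    ‖kick m c w v i - v i‖ ≤ ‖w‖ := by
  have hM : 0 < ∑ b, m b := Finset.sum_pos (fun i _ => hm i) ⟨0, Finset.mem_univ _⟩
  have h1 : m c / ∑ j, m j ≤ 1 := by
    rw [div_le_one hM]
    exact Finset.single_le_sum (fun i _ => (hm i).le) (Finset.mem_univ c)
  have h0 : 0 ≤ m c / ∑ j, m j := div_nonneg (hm c).le hM.le
  unfold kick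
  rw [add_sub_cancel_left, norm_mul]
  refine mul_le_of_le_one_left (norm_nonneg _) ?_
  split_ifs
  · rw [Complex.norm_real, Real.norm_eq_abs, abs_le]; constructor <;> linarith
  · rw [Complex.norm_real, Real.norm_eq_abs, abs_le]; constructor <;> linarith

theorem near (m : Fin 3 → ℝ) (hm : ∀ i, 0 < m i) (C : ℝ) (hC : 0 < C) (z : Ph 3) (hz : z ∈ phaseSpace m)
    (a b c : Fin 3) (hca : c ≠ a) (hcb : c ≠ b) :
    ∃ z' ∈ phaseSpace m, z'.1 = z.1 ∧
      (∀ i, ‖z'.2 i - z.2 i‖ ≤ 3 * Real.sqrt C / Real.sqrt (min ‖z.1 c - z.1 a‖ ‖z.1 c - z.1 b‖)) ∧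
      C < ‖prel m z'.2 a b c‖ ^ 2 * min ‖z'.1 c - z'.1 a‖ ‖z'.1 c - z'.1 b‖ := by
  set ρ := min ‖z.1 c - z.1 a‖ ‖z.1 c - z.1 b‖ with hρ
  have hρ0 : 0 < ρ := lt_min (norm_pos_iff.mpr (sub_ne_zero.mpr (hz.1 c a hca)))
    (norm_pos_iff.mpr (sub_ne_zero.mpr (hz.1 c b hcb)))
  set W := prel m z.2 a b c with hW
  set s := Real.sqrt C / Real.sqrt ρ with hs
  have hsC : 0 < Real.sqrt C := Real.sqrt_pos.mpr hC
  have hsρ : 0 < Real.sqrt ρ := Real.sqrt_pos.mpr hρ0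
  have hs0 : 0 < s := by positivity
  have hs2 : s ^ 2 * ρ = C := by
    rw [hs, div_pow, Real.sq_sqrt hC.le, Real.sq_sqrt hρ0.le, div_mul_cancel₀ _ hρ0.ne']
  by_cases hWs : s < ‖W‖
  · refine ⟨z, hz, rfl, fun i => ?_, ?_⟩
    · rw [sub_self, norm_zero]; positivity
    · rw [← hW, ← hρ, ← hs2]
      have : s ^ 2 < ‖W‖ ^ 2 := by gcongr
      nlinarith
  · push Not at hWs
    refine ⟨(z.1, kick m c ((3 * s : ℝ) : ℂ) z.2), ⟨hz.1, hz.2.1, ?_⟩, rfl, fun i => ?_, ?_⟩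
    · show ∑ i, (m i : ℂ) * kick m c ((3 * s : ℝ) : ℂ) z.2 i = 0
      rw [kick_sum m hm]
      exact hz.2.2
    · have h1 := kick_norm m hm c ((3 * s : ℝ) : ℂ) z.2 i
      rw [Complex.norm_real, Real.norm_of_nonneg (by positivity)] at h1
      rw [mul_div_assoc, ← hs]
      exact h1
    · show C < ‖prel m (kick m c ((3 * s : ℝ) : ℂ) z.2) a b c‖ ^ 2 * ρ
      rw [kick_rel m hm a b c hca hcb, ← hW]
      have h1 : 3 * s ≤ ‖W + ((3 * s : ℝ) : ℂ)‖ + ‖W‖ := by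
        have h2 := norm_sub_le (W + ((3 * s : ℝ) : ℂ)) W
        rw [add_sub_cancel_left, Complex.norm_real, Real.norm_of_nonneg (by positivity)] at h2
        exact h2
      have h3 : 2 * s ≤ ‖W + ((3 * s : ℝ) : ℂ)‖ := by linarith
      have h4 : (2 * s) ^ 2 ≤ ‖W + ((3 * s : ℝ) : ℂ)‖ ^ 2 := by gcongr
      rw [← hs2]
      nlinarith [mul_pos (pow_pos hs0 2) hρ0]

theorem rel_periodic_bdd {m : Fin 3 → ℝ} {x : ℝ → Ph 3} (hx : IsSol m Set.univ x) {T : ℝ} (hT : T ≠ 0)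
    (h : ∀ t a b, ‖(x (t + T)).1 a - (x (t + T)).1 b‖ = ‖(x t).1 a - (x t).1 b‖) : Bdd x := by
  have hc : ∀ a b : Fin 3, Continuous fun t => ‖(x t).1 a - (x t).1 b‖ := fun a b =>
    (continuous_iff_continuousAt.mpr fun t =>
      ((hasDerivAt_pos hx t a).continuousAt.sub (hasDerivAt_pos hx t b).continuousAt)).norm
  have hb : ∀ a b : Fin 3, ∃ R : ℝ, ∀ t, ‖(x t).1 a - (x t).1 b‖ ≤ R := by
    intro a b
    have hp : Function.Periodic (fun t => ‖(x t).1 a - (x t).1 b‖) T := fun t => h t a b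
    have h1 := hp.compact_of_continuous hT (hc a b)
    obtain ⟨R, hR⟩ := h1.isBounded.bddAbove
    exact ⟨R, fun t => hR ⟨t, rfl⟩⟩
  choose R hR using hb
  refine ⟨∑ a, ∑ b, |R a b|, fun t a b => (hR a b t).trans ?_⟩
  refine (le_abs_self _).trans ?_
  refine le_trans ?_ (Finset.single_le_sum (f := fun a => ∑ b, |R a b|)
    (fun a _ => Finset.sum_nonneg fun b _ => abs_nonneg _) (Finset.mem_univ a))
  exact Finset.single_le_sum (f := fun b => |R a b|) (fun b _ => abs_nonneg _) (Finset.mem_univ b)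

end Pool.Agent.Q85.UB
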