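import Pool.Agent.Q85.UB.Curve2
import Pool.Agent.Q85.UB.Kern

/-! Change of time on an interval; statics of three bodies. -/

set_option autoImplicit false

namespace Pool.Agent.Q85.UB

open Pool.Agent.W821.TB
open Pool.Agent.Y516.NW (E3 Cfg Mot cm P2)
open Set

theorem mot_repar {m : Fin 3 → ℝ} {γ : ℝ → Ph 3} {α T : ℝ} (hα : α < 0) (hT : 0 < T)
    (hne : ∀ t ∈ Ioo α T, ∀ i j, i ≠ j → (γ t).1 i ≠ (γ t).1 j)
    (hsol : ∀ t ∈ Ioo α T, HasDerivAt γ ((γ t).2, acc m (γ t).1) t) :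
    ∃ s τ : ℝ → ℝ, Mot m (energy m (γ 0)) (fun t i => io ((γ (τ t)).1 i)) (fun t i => io ((γ (τ t)).2 i)) s τ ∧
      τ 0 = 0 ∧ (∀ t, τ t ∈ Ioo α T) ∧ ∀ u, 0 ≤ u → u < T → ∃ t, 0 ≤ t ∧ τ t = u := by
  have hl : 0 < T - α := by linarith
  have hπ := Real.pi_pos
  set s₀ : ℝ := Real.tan (Real.pi * (-α / (T - α) - 1 / 2)) with hs₀
  set τ : ℝ → ℝ := fun t => α + (T - α) * (1 / 2 + Real.arctan (t + s₀) / Real.pi) with hτ
  have hfrac : ∀ u, α < u → u < T → Real.arctan (Real.tan (Real.pi * ((u - α) / (T - α) - 1 / 2))) =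
      Real.pi * ((u - α) / (T - α) - 1 / 2) := by
    intro u h1 h2
    have h3 : 0 < (u - α) / (T - α) := div_pos (by linarith) hl
    have h4 : (u - α) / (T - α) < 1 := (div_lt_one hl).mpr (by linarith)
    refine Real.arctan_tan ?_ ?_
    · nlinarith
    · nlinarith
  have hval : ∀ u, α < u → u < T → τ (Real.tan (Real.pi * ((u - α) / (T - α) - 1 / 2)) - s₀) = u := by
    intro u h1 h2
    simp only [hτ]
    rw [sub_add_cancel, hfrac u h1 h2]
    field_simp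
    ring
  have hτ0 : τ 0 = 0 := by
    have h1 := hval 0 hα hT
    have h2 : Real.tan (Real.pi * ((0 - α) / (T - α) - 1 / 2)) - s₀ = 0 := by
      rw [hs₀, zero_sub, sub_self]
    rwa [h2] at h1
  have hmem : ∀ t, τ t ∈ Ioo α T := by
    intro t
    have h1 := Real.neg_pi_div_two_lt_arctan (t + s₀)
    have h2 := Real.arctan_lt_pi_div_two (t + s₀)
    have h3 : -(1 / 2) < Real.arctan (t + s₀) / Real.pi := by
      rw [lt_div_iff₀ hπ]; linarith
    have h4 : Real.arctan (t + s₀) / Real.pi < 1 / 2 := by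
      rw [div_lt_iff₀ hπ]; linarith
    constructor
    · simp only [hτ]; nlinarith
    · simp only [hτ]; nlinarith
  set s : ℝ → ℝ := fun t => (T - α) * (1 / (1 + (t + s₀) ^ 2) / Real.pi) with hs
  have hτd : ∀ t, HasDerivAt τ (s t) t := by
    intro t
    have h1 : HasDerivAt (fun t : ℝ => t + s₀) 1 t := (hasDerivAt_id t).add_const s₀
    have h2 := h1.arctan
    have h3 := ((h2.div_const Real.pi).const_add (1 / 2)).const_mul (T - α)
    have h4 := h3.const_add α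
    rw [mul_one] at h4
    exact h4
  have hspos : ∀ t, 0 < s t := fun t => by
    simp only [hs]; positivity
  have hpos : ∀ t i, HasDerivAt (fun u => (γ u).1 i) ((γ (τ t)).2 i) (τ t) := fun t i =>
    fst_deriv (hsol _ (hmem t)) i
  have hvel : ∀ t i, HasDerivAt (fun u => (γ u).2 i) (acc m (γ (τ t)).1 i) (τ t) := fun t i =>
    snd_deriv (hsol _ (hmem t)) i
  have hmot : Mot m (energy m (γ 0)) (fun t i => io ((γ (τ t)).1 i)) (fun t i => io ((γ (τ t)).2 i)) s τ := by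
    refine ⟨hτ0, hτd, hspos, fun t i => ?_, fun t i => ?_, fun t i j hij h => ?_, fun t => ?_⟩
    · have h1 := io_deriv ((hpos t i).scomp t (hτd t))
      rw [map_smul] at h1
      exact h1
    · have h1 := io_deriv ((hvel t i).scomp t (hτd t))
      rw [map_smul, ← io_acc] at h1
      exact h1
    · have h1 := hne _ (hmem t) i j hij
      apply h1
      have h2 := io_sub ((γ (τ t)).1 i) ((γ (τ t)).1 j)
      rw [h, sub_self, norm_zero] at h2
      exact sub_eq_zero.mp (norm_eq_zero.mp h2.symm)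
    · rw [io_en]
      have h1 : ∀ t, HasDerivAt (fun u => energy m (γ (τ u))) 0 t := by
        intro t
        have h2 := hasDerivAt_energy (m := m) (hpos t) (hvel t) (hne _ (hmem t))
        have h3 : ∑ a, m a * ip ((γ (τ t)).2 a) (acc m (γ (τ t)).1 a) -
            ∑ a, m a * ip (acc m (γ (τ t)).1 a) ((γ (τ t)).2 a) = 0 := by
          rw [sub_eq_zero]
          refine Finset.sum_congr rfl fun a _ => ?_
          simp only [ip_eq]; ring
        rw [h3] at h2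
        have h4 := h2.scomp t (hτd t)
        rw [smul_zero] at h4
        exact h4
      have h5 := is_const_of_deriv_eq_zero (f := fun u => energy m (γ (τ u)))
        (fun u => (h1 u).differentiableAt) (fun u => (h1 u).deriv) t 0
      simp only [hτ0] at h5
      exact h5
  refine ⟨s, τ, hmot, hτ0, hmem, fun u hu0 huT => ?_⟩
  rcases hu0.eq_or_lt with h | h
  · exact ⟨0, le_rfl, by rw [hτ0, h]⟩
  · have h1 := hval u (hα.trans h) huT
    refine ⟨_, ?_, h1⟩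
    by_contra hneg
    push Not at hneg
    have h2 := hmot.mono hneg.le
    rw [h1, hτ0] at h2
    linarith

/-- the angular momentum of a pair -/
noncomputable def LM (z : Ph 3) (a b : Fin 3) : ℝ := ((starRingEnd ℂ) (z.1 b - z.1 a) * (z.2 b - z.2 a)).im

theorem stat (m : Fin 3 → ℝ) (M μ : ℝ) (hμ : 0 < μ) (hm : ∀ i, μ ≤ m i) (hM : M = ∑ i, m i)
    (a b : Fin 3) (hab : a ≠ b) (z : Ph 3) (hne : z.1 a ≠ z.1 b) (hE : energy m z ≤ 0)
    (ρ : ℝ) (hρ : 0 < ρ) (hP : ∀ i j, P2 a b i j → ρ / 8 ≤ ‖z.1 i - z.1 j‖) (hr : ‖z.1 a - z.1 b‖ ≤ ρ) :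
    (∀ i, ‖z.2 i‖ ^ 2 ≤ 10 * M ^ 2 / (μ * ‖z.1 a - z.1 b‖)) ∧
      μ * (LM z a b) ^ 2 ≤ 40 * M ^ 2 * ‖z.1 a - z.1 b‖ := by
  have hmpos : ∀ i, 0 < m i := fun i => hμ.trans_le (hm i)
  have hM0 : 0 < M := by rw [hM]; exact Finset.sum_pos (fun i _ => hmpos i) ⟨0, Finset.mem_univ _⟩
  set r := ‖z.1 a - z.1 b‖ with hrdef
  have hr0 : 0 < r := norm_pos_iff.mpr (sub_ne_zero.mpr hne)
  have h1 := Pool.Agent.Y421.NW.pot (q := fun i => io (z.1 i)) hmpos hab (d := ρ / 2) (by positivity)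
    (fun i j h => by rw [io_sub]; have := hP i j h; linarith)
  have h2 := io_en m z
  rw [io_sub, ← hrdef, ← hM] at h1
  have h5 : m a * m b ≤ M ^ 2 := by
    have e1 : m a ≤ M := hM ▸ Finset.single_le_sum (fun i _ => (hmpos i).le) (Finset.mem_univ a)
    have e2 : m b ≤ M := hM ▸ Finset.single_le_sum (fun i _ => (hmpos i).le) (Finset.mem_univ b)
    have := mul_le_mul e1 e2 (hmpos b).le hM0.le
    nlinarith
  have h6 : m a * m b / r ≤ M ^ 2 / r := by gcongr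
  have h7 : 2 * M ^ 2 / (ρ / 2) ≤ 4 * (M ^ 2 / r) := by
    have : 2 * M ^ 2 / (ρ / 2) = 4 * (M ^ 2 / ρ) := by field_simp; ring
    rw [this]
    gcongr
  have hT : ∑ i, m i * ‖io (z.2 i)‖ ^ 2 / 2 ≤ 5 * (M ^ 2 / r) := by linarith
  have hv : ∀ i, ‖z.2 i‖ ^ 2 ≤ 10 * M ^ 2 / (μ * r) := by
    intro i
    have e1 : m i * ‖io (z.2 i)‖ ^ 2 / 2 ≤ 5 * (M ^ 2 / r) := le_trans
      (Finset.single_le_sum (f := fun i => m i * ‖io (z.2 i)‖ ^ 2 / 2) (fun j _ => by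
        have := hmpos j; positivity) (Finset.mem_univ i)) hT
    rw [io_norm] at e1
    have e2 : μ * ‖z.2 i‖ ^ 2 ≤ m i * ‖z.2 i‖ ^ 2 := mul_le_mul_of_nonneg_right (hm i) (sq_nonneg _)
    have e3 : 10 * M ^ 2 / (μ * r) = 10 * (M ^ 2 / r) / μ := by field_simp
    rw [e3, le_div_iff₀ hμ]
    linarith
  refine ⟨hv, ?_⟩
  have hL : |LM z a b| ≤ r * ‖z.2 b - z.2 a‖ := by
    refine (Complex.abs_im_le_norm _).trans ?_
    rw [norm_mul, Complex.norm_conj, norm_sub_rev (z.1 b)]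
  have hu : ‖z.2 b - z.2 a‖ ^ 2 ≤ 40 * M ^ 2 / (μ * r) := by
    have e1 := norm_sub_le (z.2 b) (z.2 a)
    have e2 := hv a
    have e3 := hv b
    have e4 : ‖z.2 b - z.2 a‖ ^ 2 ≤ (‖z.2 b‖ + ‖z.2 a‖) ^ 2 := by gcongr
    have e5 : (‖z.2 b‖ + ‖z.2 a‖) ^ 2 ≤ 2 * ‖z.2 b‖ ^ 2 + 2 * ‖z.2 a‖ ^ 2 := by
      nlinarith [sq_nonneg (‖z.2 b‖ - ‖z.2 a‖)]
    have e6 : 40 * M ^ 2 / (μ * r) = 2 * (10 * M ^ 2 / (μ * r)) + 2 * (10 * M ^ 2 / (μ * r)) := by ring
    rw [e6]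
    linarith
  have h8 : (LM z a b) ^ 2 ≤ r ^ 2 * ‖z.2 b - z.2 a‖ ^ 2 := by
    rw [← sq_abs, ← mul_pow]
    gcongr
  calc μ * (LM z a b) ^ 2 ≤ μ * (r ^ 2 * (40 * M ^ 2 / (μ * r))) := by gcongr; exact h8.trans (by gcongr)
    _ = 40 * M ^ 2 * r := by field_simp

end Pool.Agent.Q85.UB
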