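import Pool.Agent.Q85.UB.Ang2

/-! Estimates on the interval on which the solution is known to exist. -/

set_option autoImplicit false

namespace Pool.Agent.Q85.UB

open Pool.Agent.W821.TB
open Pool.Agent.Y516.NW (E3 Cfg Mot cm P2)
open Set

theorem seg (m : Fin 3 → ℝ) (M μ : ℝ) (hμ : 0 < μ) (hm : ∀ i, μ ≤ m i) (hM : M = ∑ i, m i)
    (a b c : Fin 3) (hab : a ≠ b) (hca : c ≠ a) (hcb : c ≠ b) {γ : ℝ → Ph 3} {α T : ℝ} (hα : α < 0) (hT : 0 < T)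
    (hne : ∀ t ∈ Ioo α T, ∀ i j, i ≠ j → (γ t).1 i ≠ (γ t).1 j)
    (hsol : ∀ t ∈ Ioo α T, HasDerivAt γ ((γ t).2, acc m (γ t).1) t)
    (hE : energy m (γ 0) ≤ 0) (w ρ : ℝ) (hw : 0 < w) (hρ : 0 < ρ) (hC : 2000 * (M + M ^ 2 / μ) ≤ w ^ 2 * ρ)
    (hqa : ρ ≤ ‖(γ 0).1 c - (γ 0).1 a‖) (hqb : ρ ≤ ‖(γ 0).1 c - (γ 0).1 b‖)
    (hr : ‖(γ 0).1 a - (γ 0).1 b‖ ≤ ρ / 128)
    (hin : 0 ≤ inner ℝ (io (prel m (γ 0).1 a b c)) (io (prel m (γ 0).2 a b c)))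
    (hwV : w ≤ ‖prel m (γ 0).2 a b c‖) :
    ∀ u ∈ Ico 0 T, energy m (γ u) ≤ 0 ∧
      (∀ i j, P2 a b i j → (ρ / 2 + u * w) / 4 ≤ ‖(γ u).1 i - (γ u).1 j‖) ∧
      ‖(γ u).1 a - (γ u).1 b‖ ≤ 32 * M ^ 2 / (μ * w ^ 2) := by
  have hmpos : ∀ i, 0 < m i := fun i => hμ.trans_le (hm i)
  have hM0 : 0 < M := by rw [hM]; exact Finset.sum_pos (fun i _ => hmpos i) ⟨0, Finset.mem_univ _⟩
  obtain ⟨s, τ, hmot, hτ0, hmem, hsurj⟩ := mot_repar hα hT hne hsol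
  have hes := esc2 m M μ hμ hm hM.ge a b c hab hca hcb _ _ s τ _ hE hmot w ρ hw hρ hC
    (by simp only [hτ0]; rw [io_sub]; exact hqa) (by simp only [hτ0]; rw [io_sub]; exact hqb)
    (by simp only [hτ0]; rw [io_sub]; exact hr)
    (by simp only [hτ0]; rw [rel_io, rel_io]; exact hin)
    (by simp only [hτ0]; rw [rel_io, io_norm]; exact hwV)
  obtain ⟨hX, hes⟩ := hes
  intro u hu
  obtain ⟨t, ht, htu⟩ := hsurj u hu.1 hu.2
  obtain ⟨h1, h2, h3, h4⟩ := hes t ht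
  have hen := hmot.en t
  simp only [htu, hτ0] at h1 h2 h3 h4 hen hX
  obtain ⟨X, hXd⟩ : ∃ X, X = rel m (fun i => io ((γ 0).1 i)) a b c := ⟨_, rfl⟩
  obtain ⟨V, hVd⟩ : ∃ V, V = rel m (fun i => io ((γ 0).2 i)) a b c := ⟨_, rfl⟩
  rw [← hXd, ← hVd] at h2 h3 h4
  rw [← hXd] at hX
  rw [← hVd] at h1
  have hu0 : 0 ≤ u := hu.1
  have hin' : 0 ≤ inner ℝ X V := by rw [hXd, hVd, rel_io, rel_io]; exact hin
  have hV : w ≤ ‖V‖ := by rw [hVd, rel_io, io_norm]; exact hwV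
  have hXV : (2 / 3) * (ρ / 2 + u * w) ≤ ‖X + u • V‖ := by
    have e1 : ‖X + u • V‖ ^ 2 = ‖X‖ ^ 2 + 2 * (u * inner ℝ X V) + u ^ 2 * ‖V‖ ^ 2 := by
      rw [norm_add_sq_real, inner_smul_right, norm_smul, Real.norm_of_nonneg hu0]; ring
    have e2 : 0 ≤ u * inner ℝ X V := mul_nonneg hu0 hin'
    have e3 : (ρ / 2) ^ 2 ≤ ‖X‖ ^ 2 := by gcongr
    have e4 : (u * w) ^ 2 ≤ u ^ 2 * ‖V‖ ^ 2 := by rw [mul_pow]; gcongr
    have e5 : (2 / 3 * (ρ / 2 + u * w)) ^ 2 ≤ ‖X + u • V‖ ^ 2 := by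
      rw [e1]
      nlinarith [sq_nonneg (ρ / 2 - u * w)]
    exact (sq_le_sq₀ (by positivity) (norm_nonneg _)).mp e5
  have huw : 0 ≤ u * w := mul_nonneg hu0 hw.le
  have hdist : ∀ i j, P2 a b i j → (ρ / 2 + u * w) / 4 ≤ ‖(γ u).1 i - (γ u).1 j‖ := by
    intro i j hP
    have := h4 i j hP
    rw [io_sub] at this
    linarith
  have huI : u ∈ Ioo α T := ⟨hα.trans_le hu0, hu.2⟩
  refine ⟨?_, hdist, ?_⟩
  · rw [io_en] at hen
    rw [hen]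
    exact hE
  · have hP₀ : P2 a b c a := ⟨hca, fun h => hca h.1, fun h => hcb h.1⟩
    have hcmc : ∀ u : Cfg 3, cm m a b u c = u c := by
      intro u; unfold cm; rw [if_neg (by tauto)]
    have hcma : ∀ u : Cfg 3, cm m a b u a = (m a + m b)⁻¹ • (m a • u a + m b • u b) := by
      intro u; unfold cm; rw [if_pos (Or.inl rfl)]
    have hvel : w / 2 ≤ ‖cm m a b (fun i => io ((γ u).2 i)) c - cm m a b (fun i => io ((γ u).2 i)) a‖ := by
      rw [hcmc, hcma]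
      have e0 : (fun i => io ((γ u).2 i)) c - (m a + m b)⁻¹ • (m a • (fun i => io ((γ u).2 i)) a +
        m b • (fun i => io ((γ u).2 i)) b) = rel m (fun i => io ((γ u).2 i)) a b c := rfl
      rw [e0]
      have e1 : ‖V‖ ≤ ‖rel m (fun i => io ((γ u).2 i)) a b c - V‖ + ‖rel m (fun i => io ((γ u).2 i)) a b c‖ := by
        have e2 : V = -(rel m (fun i => io ((γ u).2 i)) a b c - V) + rel m (fun i => io ((γ u).2 i)) a b c := by
          abel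
        calc ‖V‖ = ‖-(rel m (fun i => io ((γ u).2 i)) a b c - V) + rel m (fun i => io ((γ u).2 i)) a b c‖ := by
              rw [← e2]
          _ ≤ _ := by
            refine (norm_add_le _ _).trans ?_
            rw [norm_neg]
      linarith
    have hk := Pool.Agent.Y421.NW.ener 3 m M μ hμ hm hM.ge a b hab (fun i => io ((γ u).1 i))
      (fun i => io ((γ u).2 i)) _ (ρ / 2) (w / 2) hE (by positivity) (by positivity)
      (fun i j hij h => by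
        apply hne u huI i j hij
        have h2 := io_sub ((γ u).1 i) ((γ u).1 j)
        rw [h, sub_self, norm_zero] at h2
        exact sub_eq_zero.mp (norm_eq_zero.mp h2.symm))
      hen
      (fun i j hP => by
        have := hdist i j hP
        rw [io_sub]
        linarith) c a hP₀ hvel
    rw [io_sub] at hk
    have hr0 := norm_nonneg ((γ u).1 a - (γ u).1 b)
    have e1 : 2 * M ^ 2 / (ρ / 2) ≤ μ * w ^ 2 / 32 := by
      have e2 : 2 * M ^ 2 / (ρ / 2) = 4 * M ^ 2 / ρ := by field_simp; ring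
      rw [e2, div_le_iff₀ hρ]
      have e3 : 2000 * (M ^ 2 / μ) ≤ w ^ 2 * ρ := by linarith
      have e4 : μ * (2000 * (M ^ 2 / μ)) ≤ μ * (w ^ 2 * ρ) := by gcongr
      have e5 : μ * (2000 * (M ^ 2 / μ)) = 2000 * M ^ 2 := by field_simp
      nlinarith [sq_nonneg M]
    rw [le_div_iff₀ (by positivity)]
    have e6 : μ * (w / 2) ^ 2 / 4 - 2 * M ^ 2 / (ρ / 2) ≥ μ * w ^ 2 / 32 := by
      have : μ * (w / 2) ^ 2 / 4 = μ * w ^ 2 / 16 := by ring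
      linarith
    have e7 : ‖(γ u).1 a - (γ u).1 b‖ * (μ * w ^ 2 / 32) ≤
      ‖(γ u).1 a - (γ u).1 b‖ * (μ * (w / 2) ^ 2 / 4 - 2 * M ^ 2 / (ρ / 2)) := by gcongr
    linarith

end Pool.Agent.Q85.UB
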